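import Pool.Agent.Lib.MP_2568bd_an.Defs

/-!
# The Daugavet property of large subspaces of `C(K)`
-/

set_option autoImplicit false

namespace Pool.Agent.Lib.MP_2568bd_an

open Pool.Agent.MP_2568bd_an

section
variable {𝕜 : Type*} [RCLike 𝕜]

/-- operators of rank one have the form `φ ⊗ v` -/
theorem rank_one_form {E : Type*} [NormedAddCommGroup E] [NormedSpace 𝕜 E] (T : E →L[𝕜] E)
    (h : LinearMap.rank (T : E →ₗ[𝕜] E) = 1) :
    ∃ (φ : E →L[𝕜] 𝕜) (v : E), v ≠ 0 ∧ T = φ.smulRight v := by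
  have h1 : Module.finrank 𝕜 (LinearMap.range (T : E →ₗ[𝕜] E)) = 1 :=
    Module.finrank_eq_of_rank_eq h
  obtain ⟨v, hv, hspan⟩ := finrank_eq_one_iff'.1 h1
  have hv' : (v : E) ≠ 0 := by simpa using hv
  obtain ⟨g, hg, hgv⟩ := exists_dual_vector 𝕜 (v : E) (norm_ne_zero_iff.2 hv')
  refine ⟨((‖(v : E)‖ : 𝕜)⁻¹) • g.comp T, v, hv', ?_⟩
  ext x
  obtain ⟨c, hc⟩ := hspan ⟨T x, LinearMap.mem_range_self _ x⟩
  have hc' : c • (v : E) = T x := congrArg Subtype.val hc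
  have hn : (‖(v : E)‖ : 𝕜) ≠ 0 := by simpa using hv'
  simp only [ContinuousLinearMap.smulRight_apply, smul_apply, ContinuousLinearMap.comp_apply]
  rw [← hc', map_smul, hgv, smul_eq_mul, smul_eq_mul]
  congr 1
  field_simp

theorem norm_id_add_le {E : Type*} [NormedAddCommGroup E] [NormedSpace 𝕜 E] (T : E →L[𝕜] E) :
    ‖ContinuousLinearMap.id 𝕜 E + T‖ ≤ 1 + ‖T‖ :=
  (norm_add_le _ _).trans (add_le_add_left ContinuousLinearMap.norm_id_le _)

/-- a unimodular scalar aligning `z` -/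
theorem exists_phase (z : 𝕜) : ∃ c : 𝕜, ‖c‖ = 1 ∧ c * z = (‖z‖ : 𝕜) := by
  by_cases hz : z = 0
  · exact ⟨1, by simp, by simp [hz]⟩
  · have hn : ‖z‖ ≠ 0 := by simpa using hz
    refine ⟨(starRingEnd 𝕜) z / (‖z‖ : 𝕜), ?_, ?_⟩
    · rw [norm_div, RCLike.norm_conj]
      simp only [RCLike.norm_ofReal, abs_norm]
      exact div_self hn
    · rw [div_mul_eq_mul_div, RCLike.conj_mul, sq, mul_div_assoc, div_self, mul_one]
      simpa using hz

variable {K : Type*} [TopologicalSpace K] [CompactSpace K] [T2Space K]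

omit [T2Space K] in
theorem exists_norm_eq [Nonempty K] (f : C(K, 𝕜)) : ∃ t, ‖f‖ = ‖f t‖ := by
  obtain ⟨t, -, ht⟩ := isCompact_univ.exists_isMaxOn Set.univ_nonempty
    f.continuous.norm.continuousOn
  exact ⟨t, le_antisymm ((ContinuousMap.norm_le f (norm_nonneg _)).2 fun x => ht (Set.mem_univ x))
    (f.norm_coe_le_norm t)⟩

/-- disjoint bumps -/
theorem exists_bumps {O : Set K} (hO : IsOpen O) (hinf : O.Infinite) (N : ℕ) :
    ∃ (T : Finset K) (h : K → C(K, ℝ)), T.card = N ∧ (∀ t ∈ T, t ∈ O) ∧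
      (∀ t ∈ T, h t t = 1) ∧ (∀ t ∈ T, ∀ x, 0 ≤ h t x) ∧ (∀ x, ∑ t ∈ T, h t x ≤ 1) ∧
      (∀ t ∈ T, ∀ x ∉ O, h t x = 0) := by
  obtain ⟨T, hT, hTc⟩ := hinf.exists_subset_card_eq N
  obtain ⟨U, hU, hdisj⟩ := (T.finite_toSet).t2_separation
  have hex : ∀ t : K, ∃ h : C(K, ℝ), (t ∈ O → h t = 1) ∧ (∀ x, 0 ≤ h x ∧ h x ≤ 1) ∧
      (∀ x, x ∉ U t ∩ O → h x = 0) := by
    intro t
    by_cases ht : t ∈ O
    · have hcl : IsClosed (U t ∩ O)ᶜ := ((hU t).2.inter hO).isClosed_compl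
      have hd : Disjoint (U t ∩ O)ᶜ {t} := by
        rw [Set.disjoint_singleton_right]
        intro hcon
        exact hcon ⟨(hU t).1, ht⟩
      obtain ⟨h, h0, h1, h2⟩ := exists_continuous_zero_one_of_isClosed hcl isClosed_singleton hd
      exact ⟨h, fun _ => h1 rfl, fun x => h2 x, fun x hx => h0 hx⟩
    · exact ⟨0, fun h => absurd h ht, fun x => by simp, fun x _ => rfl⟩
  choose h h1 h2 h3 using hex
  refine ⟨T, h, hTc, fun t ht => hT ht, fun t ht => h1 t (hT ht), fun t _ x => (h2 t x).1, ?_,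
    fun t _ x hx => h3 t x (fun hcon => hx hcon.2)⟩
  intro x
  by_cases hx : ∃ t₀ ∈ T, x ∈ U t₀
  · obtain ⟨t₀, ht₀, hxt⟩ := hx
    have : ∑ t ∈ T, h t x = h t₀ x := by
      apply Finset.sum_eq_single_of_mem t₀ ht₀
      intro t ht hne
      apply h3
      intro hcon
      have hd := hdisj (Finset.mem_coe.2 ht) (Finset.mem_coe.2 ht₀) hne
      exact Set.disjoint_left.1 hd hcon.1 hxt
    rw [this]
    exact (h2 t₀ x).2
  · push Not at hx
    have : ∑ t ∈ T, h t x = 0 := by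
      apply Finset.sum_eq_zero
      intro t ht
      apply h3
      intro hcon
      exact hx t ht hcon.1
    rw [this]; exact zero_le_one

/-- Large subspaces of `C(K)` have the Daugavet property. -/
theorem daugavet_of_embed {Z : Type*} [NormedAddCommGroup Z] [NormedSpace 𝕜 Z]
    (J : Z →ₗᵢ[𝕜] C(K, 𝕜)) (D : Set K) (hD : IsClosed D)
    (hJ : ∀ g : C(K, 𝕜), (∀ t ∈ D, g t = 0) → ∃ z, J z = g)
    (hK : ∀ O : Set K, IsOpen O → O.Nonempty → (O \ D).Infinite) : Daugavet 𝕜 Z := by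
  intro T hT
  obtain ⟨φ, v, hv, rfl⟩ := rank_one_form T hT
  apply le_antisymm (norm_id_add_le _)
  rw [ContinuousLinearMap.norm_smulRight_apply]
  apply le_of_forall_pos_le_add
  intro ε hε
  -- a point where `v` is large
  have hne : Nonempty K := by
    by_contra hcon
    rw [not_nonempty_iff] at hcon
    apply hv
    apply J.injective
    ext x
    exact hcon.elim x
  obtain ⟨t₀, ht₀⟩ := exists_norm_eq (J v)
  set δ : ℝ := ε / (4 * (‖φ‖ + ‖v‖ + 1)) with hδ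
  have hδ0 : 0 < δ := by positivity
  obtain ⟨u, hu1, hu2⟩ := exists_phase (J v t₀)
  -- `conj u` is the phase of `v t₀`
  set e : 𝕜 := (starRingEnd 𝕜) u with he
  have he1 : ‖e‖ = 1 := by rw [he, RCLike.norm_conj, hu1]
  have hue : e * u = 1 := by
    rw [he, RCLike.conj_mul, hu1]; simp
  have hvt : J v t₀ = (‖v‖ : 𝕜) * e := by
    have h1 : ‖J v t₀‖ = ‖v‖ := by rw [← ht₀, J.norm_map]
    have h2 : e * (u * J v t₀) = e * (‖v‖ : 𝕜) := by rw [hu2, h1]
    rw [← mul_assoc, hue, one_mul] at h2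
    rw [h2, mul_comm]
  -- nearly norming element
  obtain ⟨f₁, hf₁, hφ₁⟩ : ∃ f₁ : Z, ‖f₁‖ ≤ 1 ∧ ‖φ‖ - δ < RCLike.re (φ f₁) := by
    by_cases hφ0 : ‖φ‖ = 0
    · refine ⟨0, by simp, ?_⟩
      rw [hφ0, map_zero, map_zero]; linarith
    · obtain ⟨x, hx1, hx2⟩ := φ.exists_lt_apply_of_lt_opNorm (r := max 0 (‖φ‖ - δ)) (by
        apply max_lt
        · exact lt_of_le_of_ne (norm_nonneg _) (Ne.symm hφ0)
        · linarith)
      obtain ⟨c, hc1, hc2⟩ := exists_phase (φ x)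
      refine ⟨c • x, ?_, ?_⟩
      · rw [norm_smul, hc1, one_mul]; exact hx1.le
      · rw [map_smul, smul_eq_mul, hc2, RCLike.ofReal_re]
        exact lt_of_le_of_lt (le_max_right _ _) hx2
  -- the open set
  let O : Set K := {t | ‖J v t - J v t₀‖ < δ}
  have hO : IsOpen O := isOpen_lt (by fun_prop) continuous_const
  have hOne : O.Nonempty := ⟨t₀, by simp [O, hδ0]⟩
  obtain ⟨N, hN⟩ := exists_nat_gt (2 * ‖φ‖ / δ)
  have hOD : IsOpen (O \ D) := hO.sdiff hD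
  obtain ⟨T, h, hTc, hTO, hh1, hh0, hhs, hhD⟩ := exists_bumps hOD (hK O hO hOne) (N + 1)
  -- the perturbations
  let dc : K → C(K, 𝕜) := fun t =>
    ⟨fun x => (h t x : 𝕜) * (e - J f₁ x), by fun_prop⟩
  have hdc : ∀ t x, dc t x = (h t x : 𝕜) * (e - J f₁ x) := fun t x => rfl
  have hex : ∀ t ∈ T, ∃ z, J z = dc t := by
    intro t ht
    apply hJ
    intro x hx
    rw [hdc, hhD t ht x (fun hcon => hcon.2 hx)]
    simp
  classical
  let d : K → Z := fun t => if ht : t ∈ T then (hex t ht).choose else 0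
  have hd : ∀ t ∈ T, J (d t) = dc t := by
    intro t ht
    simp only [d, dif_pos ht]
    exact (hex t ht).choose_spec
  have hf₁x : ∀ x, ‖J f₁ x‖ ≤ 1 := fun x =>
    ((J f₁).norm_coe_le_norm x).trans (by rw [J.norm_map]; exact hf₁)
  -- small value of `φ`
  obtain ⟨t, htT, htφ⟩ : ∃ t ∈ T, ‖φ (d t)‖ ≤ δ := by
    by_contra hcon
    push Not at hcon
    choose c hc1 hc2 using fun t => exists_phase (φ (d t))
    have h1 : φ (∑ t ∈ T, c t • d t) = ((∑ t ∈ T, ‖φ (d t)‖ : ℝ) : 𝕜) := by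
      rw [map_sum]
      push_cast
      apply Finset.sum_congr rfl
      intro t _
      rw [map_smul, smul_eq_mul, hc2]
    have h2 : ‖∑ t ∈ T, c t • d t‖ ≤ 2 := by
      rw [← J.norm_map, map_sum]
      apply (ContinuousMap.norm_le _ (by norm_num)).2
      intro x
      rw [ContinuousMap.sum_apply]
      calc ‖∑ t ∈ T, J (c t • d t) x‖ ≤ ∑ t ∈ T, ‖J (c t • d t) x‖ := norm_sum_le _ _
        _ ≤ ∑ t ∈ T, h t x * 2 := by
            apply Finset.sum_le_sum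
            intro t ht
            rw [map_smul, ContinuousMap.smul_apply, norm_smul, hc1, one_mul, hd t ht, hdc, norm_mul,
              RCLike.norm_ofReal, abs_of_nonneg (hh0 t ht x)]
            apply mul_le_mul_of_nonneg_left _ (hh0 t ht x)
            calc ‖e - J f₁ x‖ ≤ ‖e‖ + ‖J f₁ x‖ := norm_sub_le _ _
              _ ≤ 2 := by rw [he1]; linarith [hf₁x x]
        _ = (∑ t ∈ T, h t x) * 2 := by rw [Finset.sum_mul]
        _ ≤ 2 := by linarith [hhs x]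
    have h3 : ∑ t ∈ T, ‖φ (d t)‖ ≤ ‖φ‖ * 2 := by
      have h4 : ‖φ (∑ t ∈ T, c t • d t)‖ ≤ ‖φ‖ * 2 :=
        (φ.le_opNorm _).trans (mul_le_mul_of_nonneg_left h2 (norm_nonneg _))
      rw [h1, RCLike.norm_ofReal, abs_of_nonneg (by positivity)] at h4
      exact h4
    have h5 : (N + 1 : ℝ) * δ ≤ ∑ t ∈ T, ‖φ (d t)‖ := by
      calc (N + 1 : ℝ) * δ = ∑ _t ∈ T, δ := by rw [Finset.sum_const, hTc]; simp
        _ ≤ _ := Finset.sum_le_sum fun t ht => (hcon t ht).le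
    rw [div_lt_iff₀ hδ0] at hN
    nlinarith
  -- the modified element
  have htO := hTO t htT
  set f : Z := f₁ + d t with hf
  have hfx : ∀ x, J f x = (1 - (h t x : 𝕜)) * J f₁ x + (h t x : 𝕜) * e := by
    intro x
    rw [hf, map_add, ContinuousMap.add_apply, hd t htT, hdc]; ring
  have hle1 : ∀ x, h t x ≤ 1 := fun x =>
    (Finset.single_le_sum (fun s hs => hh0 s hs x) htT).trans (hhs x)
  have hfn : ‖f‖ ≤ 1 := by
    rw [← J.norm_map]
    apply (ContinuousMap.norm_le _ zero_le_one).2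
    intro x
    rw [hfx]
    have h0 := hh0 t htT x
    have h1 := hle1 x
    calc ‖(1 - (h t x : 𝕜)) * J f₁ x + (h t x : 𝕜) * e‖
        ≤ ‖(1 - (h t x : 𝕜)) * J f₁ x‖ + ‖(h t x : 𝕜) * e‖ := norm_add_le _ _
      _ = (1 - h t x) * ‖J f₁ x‖ + h t x := by
          rw [norm_mul, norm_mul, he1, mul_one, RCLike.norm_ofReal, abs_of_nonneg h0]
          congr 2
          have : (1 - (h t x : 𝕜)) = ((1 - h t x : ℝ) : 𝕜) := by push_cast; ring
          rw [this, RCLike.norm_ofReal, abs_of_nonneg (by linarith)]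
      _ ≤ (1 - h t x) * 1 + h t x := by
          have := mul_le_mul_of_nonneg_left (hf₁x x) (by linarith : 0 ≤ 1 - h t x)
          linarith
      _ = 1 := by ring
  have hft : J f t = e := by rw [hfx, hh1 t htT]; simp
  have hφf : ‖φ‖ - 2 * δ ≤ RCLike.re (φ f) := by
    rw [hf, map_add, map_add]
    have h1 : -‖φ (d t)‖ ≤ RCLike.re (φ (d t)) := by
      have := RCLike.abs_re_le_norm (φ (d t))
      exact neg_le_of_abs_le this
    linarith
  -- evaluation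
  have h1 : ‖(ContinuousLinearMap.id 𝕜 Z + φ.smulRight v) f‖ ≤
      ‖ContinuousLinearMap.id 𝕜 Z + φ.smulRight v‖ := by
    calc _ ≤ ‖ContinuousLinearMap.id 𝕜 Z + φ.smulRight v‖ * ‖f‖ := ContinuousLinearMap.le_opNorm _ _
      _ ≤ ‖ContinuousLinearMap.id 𝕜 Z + φ.smulRight v‖ * 1 :=
          mul_le_mul_of_nonneg_left hfn (norm_nonneg _)
      _ = _ := mul_one _
  have h2 : ‖J ((ContinuousLinearMap.id 𝕜 Z + φ.smulRight v) f) t‖ ≤
      ‖(ContinuousLinearMap.id 𝕜 Z + φ.smulRight v) f‖ := by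
    rw [← J.norm_map]
    exact ContinuousMap.norm_coe_le_norm _ _
  have h3 : J ((ContinuousLinearMap.id 𝕜 Z + φ.smulRight v) f) t = e + φ f * J v t := by
    simp [hft]
  have h4 : 1 + ‖φ‖ * ‖v‖ - ε ≤ ‖e + φ f * J v t‖ := by
    have h5 : e + φ f * J v t = e * (1 + φ f * (‖v‖ : 𝕜)) + φ f * (J v t - J v t₀) := by
      rw [hvt]; ring
    have h6 : ‖φ f * (J v t - J v t₀)‖ ≤ ‖φ‖ * δ := by
      rw [norm_mul]
      apply mul_le_mul _ (le_of_lt htO.1) (norm_nonneg _) (norm_nonneg _)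
      calc ‖φ f‖ ≤ ‖φ‖ * ‖f‖ := φ.le_opNorm f
        _ ≤ ‖φ‖ * 1 := mul_le_mul_of_nonneg_left hfn (norm_nonneg _)
        _ = ‖φ‖ := mul_one _
    have h7 : 1 + (‖φ‖ - 2 * δ) * ‖v‖ ≤ ‖1 + φ f * (‖v‖ : 𝕜)‖ := by
      have h8 : RCLike.re (1 + φ f * (‖v‖ : 𝕜)) = 1 + RCLike.re (φ f) * ‖v‖ := by
        rw [map_add, RCLike.re_mul_ofReal]; simp
      calc 1 + (‖φ‖ - 2 * δ) * ‖v‖ ≤ 1 + RCLike.re (φ f) * ‖v‖ := by
            have := mul_le_mul_of_nonneg_right hφf (norm_nonneg v)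
            linarith
        _ = RCLike.re (1 + φ f * (‖v‖ : 𝕜)) := h8.symm
        _ ≤ _ := RCLike.re_le_norm _
    have h9 : ‖e * (1 + φ f * (‖v‖ : 𝕜))‖ = ‖1 + φ f * (‖v‖ : 𝕜)‖ := by
      rw [norm_mul, he1, one_mul]
    have h10 : ‖e * (1 + φ f * (‖v‖ : 𝕜))‖ - ‖φ f * (J v t - J v t₀)‖ ≤
        ‖e * (1 + φ f * (‖v‖ : 𝕜)) + φ f * (J v t - J v t₀)‖ := by
      have := norm_sub_norm_le (e * (1 + φ f * (‖v‖ : 𝕜))) (-(φ f * (J v t - J v t₀)))
      rw [norm_neg, sub_neg_eq_add] at this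
      exact this
    rw [h5]
    have h11 : 2 * δ * ‖v‖ + ‖φ‖ * δ ≤ ε := by
      have h12 : δ * (4 * (‖φ‖ + ‖v‖ + 1)) = ε := by
        rw [hδ]; field_simp
      nlinarith [norm_nonneg φ, norm_nonneg v]
    linarith
  rw [h3] at h2
  linarith

end

end Pool.Agent.Lib.MP_2568bd_an
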