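import Mathlib

/-!
# MP_2568bd_an: the Daugavet property and the projective tensor product
-/

set_option autoImplicit false

open scoped TensorProduct

namespace Pool.Agent.MP_2568bd_an

/-- A normed space `E` has the Daugavet property if `‖I + T‖ = 1 + ‖T‖` for every bounded linear
operator `T : E → E` of rank one. -/
def Daugavet (𝕜 : Type*) [RCLike 𝕜] (E : Type*) [NormedAddCommGroup E] [NormedSpace 𝕜 E] : Prop :=
  ∀ T : E →L[𝕜] E, LinearMap.rank (T : E →ₗ[𝕜] E) = 1 →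
    ‖ContinuousLinearMap.id 𝕜 E + T‖ = 1 + ‖T‖

section
variable {𝕜 : Type*} [RCLike 𝕜] {X Y : Type*} [NormedAddCommGroup X] [NormedSpace 𝕜 X]
  [NormedAddCommGroup Y] [NormedSpace 𝕜 Y]

/-- The set of the sums `∑ ‖x_i‖ ‖y_i‖` over all representations `u = ∑ x_i ⊗ y_i`. -/
def reprSums (u : X ⊗[𝕜] Y) : Set ℝ :=
  {r | ∃ (n : ℕ) (x : Fin n → X) (y : Fin n → Y),
    u = ∑ i, x i ⊗ₜ[𝕜] y i ∧ r = ∑ i, ‖x i‖ * ‖y i‖}

/-- The projective norm of `u`, the infimum of `∑ ‖x_i‖ ‖y_i‖` over all representations. -/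
noncomputable def projNorm (u : X ⊗[𝕜] Y) : ℝ := sInf (reprSums u)

theorem reprSums_bddBelow (u : X ⊗[𝕜] Y) : BddBelow (reprSums u) := by
  refine ⟨0, ?_⟩
  rintro r ⟨n, x, y, _, rfl⟩
  positivity

theorem reprSums_nonempty (u : X ⊗[𝕜] Y) : (reprSums u).Nonempty := by
  induction u using TensorProduct.induction_on with
  | zero => exact ⟨0, 0, Fin.elim0, Fin.elim0, by simp, by simp⟩
  | tmul x y => exact ⟨_, 1, fun _ => x, fun _ => y, by simp, rfl⟩
  | add u v hu hv =>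
    obtain ⟨_, n, x, y, hu, rfl⟩ := hu
    obtain ⟨_, m, x', y', hv, rfl⟩ := hv
    refine ⟨_, n + m, Fin.append x x', Fin.append y y', ?_, rfl⟩
    rw [Fin.sum_univ_add]
    simp [hu, hv]

theorem projNorm_le {u : X ⊗[𝕜] Y} {n : ℕ} {x : Fin n → X} {y : Fin n → Y}
    (h : u = ∑ i, x i ⊗ₜ[𝕜] y i) : projNorm u ≤ ∑ i, ‖x i‖ * ‖y i‖ :=
  csInf_le (reprSums_bddBelow u) ⟨n, x, y, h, rfl⟩

theorem projNorm_add (u v : X ⊗[𝕜] Y) : projNorm (u + v) ≤ projNorm u + projNorm v := by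
  apply le_of_forall_pos_le_add
  intro ε hε
  obtain ⟨_, ⟨n, x, y, hu, rfl⟩, h1⟩ := Real.lt_sInf_add_pos (reprSums_nonempty u) (half_pos hε)
  obtain ⟨_, ⟨m, x', y', hv, rfl⟩, h2⟩ := Real.lt_sInf_add_pos (reprSums_nonempty v) (half_pos hε)
  have h3 : u + v = ∑ i, (Fin.append x x' i) ⊗ₜ[𝕜] (Fin.append y y' i) := by
    rw [Fin.sum_univ_add]
    simp [hu, hv]
  have h4 := projNorm_le h3
  rw [Fin.sum_univ_add] at h4
  simp only [Fin.append_left, Fin.append_right] at h4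
  unfold projNorm at h4 ⊢
  linarith

theorem projNorm_smul_le (c : 𝕜) (u : X ⊗[𝕜] Y) : projNorm (c • u) ≤ ‖c‖ * projNorm u := by
  apply le_of_forall_pos_le_add
  intro ε hε
  have hpos : 0 < ε / (‖c‖ + 1) := by positivity
  obtain ⟨_, ⟨n, x, y, hu, rfl⟩, h1⟩ := Real.lt_sInf_add_pos (reprSums_nonempty u) hpos
  have h3 : c • u = ∑ i, (c • x i) ⊗ₜ[𝕜] y i := by
    rw [hu, Finset.smul_sum]
    rfl
  have h4 := projNorm_le h3
  have h5 : ∑ i, ‖c • x i‖ * ‖y i‖ = ‖c‖ * ∑ i, ‖x i‖ * ‖y i‖ := by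
    rw [Finset.mul_sum]
    apply Finset.sum_congr rfl
    intro i _
    rw [norm_smul]; ring
  rw [h5] at h4
  have h6 : ‖c‖ * (ε / (‖c‖ + 1)) ≤ ε := by
    rw [mul_div_assoc', div_le_iff₀ (by positivity)]
    nlinarith [norm_nonneg c]
  have h7 : ‖c‖ * ∑ i, ‖x i‖ * ‖y i‖ ≤ ‖c‖ * (projNorm u + ε / (‖c‖ + 1)) :=
    mul_le_mul_of_nonneg_left h1.le (norm_nonneg _)
  linarith

theorem projNorm_nonneg (u : X ⊗[𝕜] Y) : 0 ≤ projNorm u :=
  Real.sInf_nonneg (by rintro r ⟨n, x, y, _, rfl⟩; positivity)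

theorem projNorm_zero : projNorm (0 : X ⊗[𝕜] Y) = 0 := by
  have h : (0 : X ⊗[𝕜] Y) = ∑ i : Fin 0, (0 : X) ⊗ₜ[𝕜] (0 : Y) := by simp
  have h1 := projNorm_le h
  simp only [Finset.univ_eq_empty, Finset.sum_empty] at h1
  exact le_antisymm h1 (projNorm_nonneg _)

/-- The projective norm as a seminorm. -/
noncomputable def projSeminorm : Seminorm 𝕜 (X ⊗[𝕜] Y) :=
  Seminorm.ofSMulLE projNorm projNorm_zero projNorm_add projNorm_smul_le

end

section
variable (𝕜 : Type*) [RCLike 𝕜] (X Y : Type*) [NormedAddCommGroup X] [NormedSpace 𝕜 X]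
  [NormedAddCommGroup Y] [NormedSpace 𝕜 Y]

/-- The algebraic tensor product `X ⊗ Y`, to be normed by the projective norm. -/
def ProjTensor : Type _ := X ⊗[𝕜] Y

noncomputable instance : AddCommGroup (ProjTensor 𝕜 X Y) :=
  inferInstanceAs (AddCommGroup (X ⊗[𝕜] Y))

noncomputable instance : Module 𝕜 (ProjTensor 𝕜 X Y) :=
  inferInstanceAs (Module 𝕜 (X ⊗[𝕜] Y))

/-- `X ⊗ Y` with the projective norm. -/
noncomputable instance : SeminormedAddCommGroup (ProjTensor 𝕜 X Y) :=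
  AddGroupSeminorm.toSeminormedAddCommGroup
    (projSeminorm (𝕜 := 𝕜) (X := X) (Y := Y)).toAddGroupSeminorm

theorem ProjTensor.norm_def (u : ProjTensor 𝕜 X Y) :
    ‖u‖ = projNorm (𝕜 := 𝕜) (X := X) (Y := Y) u := rfl

noncomputable instance : NormedSpace 𝕜 (ProjTensor 𝕜 X Y) where
  norm_smul_le c u := by
    rw [ProjTensor.norm_def, ProjTensor.norm_def]
    exact projNorm_smul_le (X := X) (Y := Y) c u

/-- The projective tensor product `X ⊗̂_π Y`, the completion of `X ⊗ Y` in the projective norm. -/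
abbrev CompletedProj : Type _ := UniformSpace.Completion (ProjTensor 𝕜 X Y)

end

end Pool.Agent.MP_2568bd_an
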