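import Pool.Agent.Lib.MP_2568bd_an.Defs

/-!
# Basic facts on projective tensor products
-/

set_option autoImplicit false

open scoped TensorProduct

namespace Pool.Agent.Lib.MP_2568bd_an

open Pool.Agent.MP_2568bd_an

section
variable {𝕜 : Type*} [RCLike 𝕜] {X Y : Type*} [NormedAddCommGroup X] [NormedSpace 𝕜 X]
  [NormedAddCommGroup Y] [NormedSpace 𝕜 Y]

/-- elementary tensors before completion -/
def pt (x : X) (y : Y) : ProjTensor 𝕜 X Y := (x ⊗ₜ[𝕜] y : X ⊗[𝕜] Y)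

/-- elementary tensors in the completion -/
noncomputable def tm (𝕜 : Type*) [RCLike 𝕜] {X Y : Type*} [NormedAddCommGroup X]
    [NormedSpace 𝕜 X] [NormedAddCommGroup Y] [NormedSpace 𝕜 Y] (x : X) (y : Y) :
    CompletedProj 𝕜 X Y := ((pt x y : ProjTensor 𝕜 X Y) : CompletedProj 𝕜 X Y)

theorem norm_tm_le (x : X) (y : Y) : ‖tm 𝕜 x y‖ ≤ ‖x‖ * ‖y‖ := by
  unfold tm
  rw [UniformSpace.Completion.norm_coe, ProjTensor.norm_def]
  have h : (x ⊗ₜ[𝕜] y : X ⊗[𝕜] Y) = ∑ i : Fin 1, (fun _ => x) i ⊗ₜ[𝕜] (fun _ => y) i := by simp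
  have := projNorm_le h
  simp only [Finset.univ_unique, Finset.sum_singleton] at this
  exact this

theorem tm_add_left (x x' : X) (y : Y) : tm 𝕜 (x + x') y = tm 𝕜 x y + tm 𝕜 x' y := by
  unfold tm
  rw [← UniformSpace.Completion.coe_add]
  congr 1
  exact TensorProduct.add_tmul x x' y

theorem tm_add_right (x : X) (y y' : Y) : tm 𝕜 x (y + y') = tm 𝕜 x y + tm 𝕜 x y' := by
  unfold tm
  rw [← UniformSpace.Completion.coe_add]
  congr 1
  exact TensorProduct.tmul_add x y y'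

theorem tm_smul_left (c : 𝕜) (x : X) (y : Y) : tm 𝕜 (c • x) y = c • tm 𝕜 x y := by
  unfold tm
  rw [← UniformSpace.Completion.coe_smul]
  congr 1

theorem tm_smul_right (c : 𝕜) (x : X) (y : Y) : tm 𝕜 x (c • y) = c • tm 𝕜 x y := by
  unfold tm
  rw [← UniformSpace.Completion.coe_smul]
  congr 1
  exact TensorProduct.tmul_smul c x y

/-- representation of an element of the algebraic tensor product -/
theorem exists_repr (u : ProjTensor 𝕜 X Y) {ε : ℝ} (hε : 0 < ε) :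
    ∃ (n : ℕ) (x : Fin n → X) (y : Fin n → Y), u = ∑ i, pt (x i) (y i) ∧
      ∑ i, ‖x i‖ * ‖y i‖ < ‖u‖ + ε := by
  obtain ⟨_, ⟨n, x, y, hu, rfl⟩, h1⟩ := Real.lt_sInf_add_pos
    (reprSums_nonempty (𝕜 := 𝕜) (X := X) (Y := Y) u) hε
  exact ⟨n, x, y, hu, h1⟩

theorem coe_repr {n : ℕ} (x : Fin n → X) (y : Fin n → Y) :
    ((∑ i, pt (x i) (y i) : ProjTensor 𝕜 X Y) : CompletedProj 𝕜 X Y) = ∑ i, tm 𝕜 (x i) (y i) := by
  have h := map_sum (UniformSpace.Completion.toComplₗᵢ (𝕜 := 𝕜) (E := ProjTensor 𝕜 X Y))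
    (fun i => pt (x i) (y i)) Finset.univ
  exact h

/-- norms of operators on the projective tensor product are computed on elementary tensors -/
theorem opNorm_le {F : Type*} [NormedAddCommGroup F] [NormedSpace 𝕜 F]
    (S : CompletedProj 𝕜 X Y →L[𝕜] F) {C : ℝ} (hC : 0 ≤ C)
    (h : ∀ x y, ‖S (tm 𝕜 x y)‖ ≤ C * (‖x‖ * ‖y‖)) : ‖S‖ ≤ C := by
  apply ContinuousLinearMap.opNorm_le_bound _ hC
  intro w
  induction w using UniformSpace.Completion.induction_on with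
  | hp => exact isClosed_le (S.continuous.norm) (continuous_const.mul continuous_norm)
  | ih u =>
    rw [UniformSpace.Completion.norm_coe]
    apply le_of_forall_pos_le_add
    intro ε hε
    have hpos : 0 < ε / (C + 1) := by positivity
    obtain ⟨n, x, y, hu, h1⟩ := exists_repr u hpos
    have h2 : S (u : CompletedProj 𝕜 X Y) = ∑ i, S (tm 𝕜 (x i) (y i)) := by
      conv_lhs => rw [hu, coe_repr]
      rw [map_sum]
    rw [h2]
    have h6 : C * (ε / (C + 1)) ≤ ε := by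
      rw [mul_div_assoc', div_le_iff₀ (by positivity)]
      nlinarith
    calc ‖∑ i, S (tm 𝕜 (x i) (y i))‖ ≤ ∑ i, ‖S (tm 𝕜 (x i) (y i))‖ := norm_sum_le _ _
      _ ≤ ∑ i, C * (‖x i‖ * ‖y i‖) := Finset.sum_le_sum fun i _ => h _ _
      _ = C * ∑ i, ‖x i‖ * ‖y i‖ := by rw [Finset.mul_sum]
      _ ≤ C * (‖u‖ + ε / (C + 1)) := mul_le_mul_of_nonneg_left h1.le hC
      _ ≤ C * ‖u‖ + ε := by linarith

/-- functionals from bounded bilinear forms -/
theorem exists_lift (B : X →ₗ[𝕜] Y →ₗ[𝕜] 𝕜) {C : ℝ} (hC : 0 ≤ C)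
    (h : ∀ x y, ‖B x y‖ ≤ C * (‖x‖ * ‖y‖)) :
    ∃ G : CompletedProj 𝕜 X Y →L[𝕜] 𝕜, (∀ x y, G (tm 𝕜 x y) = B x y) ∧ ‖G‖ ≤ C := by
  let L : ProjTensor 𝕜 X Y →ₗ[𝕜] 𝕜 := TensorProduct.lift B
  have hL : ∀ x y, L (pt x y) = B x y := fun x y => TensorProduct.lift.tmul x y
  have hb : ∀ u, ‖L u‖ ≤ C * ‖u‖ := by
    intro u
    apply le_of_forall_pos_le_add
    intro ε hε
    have hpos : 0 < ε / (C + 1) := by positivity
    obtain ⟨n, x, y, hu, h1⟩ := exists_repr u hpos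
    have h2 : L u = ∑ i, B (x i) (y i) := by
      conv_lhs => rw [hu]
      rw [map_sum]
      exact Finset.sum_congr rfl fun i _ => hL _ _
    rw [h2]
    have h6 : C * (ε / (C + 1)) ≤ ε := by
      rw [mul_div_assoc', div_le_iff₀ (by positivity)]
      nlinarith
    calc ‖∑ i, B (x i) (y i)‖ ≤ ∑ i, ‖B (x i) (y i)‖ := norm_sum_le _ _
      _ ≤ ∑ i, C * (‖x i‖ * ‖y i‖) := Finset.sum_le_sum fun i _ => h _ _
      _ = C * ∑ i, ‖x i‖ * ‖y i‖ := by rw [Finset.mul_sum]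
      _ ≤ C * (‖u‖ + ε / (C + 1)) := mul_le_mul_of_nonneg_left h1.le hC
      _ ≤ C * ‖u‖ + ε := by linarith
  let L' : ProjTensor 𝕜 X Y →L[𝕜] 𝕜 := L.mkContinuous C hb
  let G : CompletedProj 𝕜 X Y →L[𝕜] 𝕜 := L'.extend UniformSpace.Completion.toComplL
  have hG : ∀ x y, G (tm 𝕜 x y) = B x y := by
    intro x y
    have h1 : G ((pt x y : ProjTensor 𝕜 X Y) : CompletedProj 𝕜 X Y) = L' (pt x y) :=
      ContinuousLinearMap.extend_eq L' UniformSpace.Completion.denseRange_coe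
        (UniformSpace.Completion.isUniformInducing_coe _) (pt x y)
    exact h1.trans (hL x y)
  refine ⟨G, hG, opNorm_le G hC ?_⟩
  intro x y
  rw [hG]
  exact h x y

end

end Pool.Agent.Lib.MP_2568bd_an
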