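import Pool.Agent.Lib.MP_2568bd_an.Rigid
import Pool.Agent.Lib.MP_2568bd_an.Proj

/-!
# Failure of the Daugavet property
-/

set_option autoImplicit false

namespace Pool.Agent.Lib.MP_2568bd_an

open Pool.Agent.MP_2568bd_an

section
variable {𝕜 : Type} [RCLike 𝕜]

/-- the partition of unity -/
noncomputable def bf : Fin 3 → C(unitInterval, ℝ) :=
  ![⟨fun ω => max 0 (1 - 2 * (ω : ℝ)), by fun_prop⟩,
    ⟨fun ω => 1 - max 0 (1 - 2 * (ω : ℝ)) - max 0 (2 * (ω : ℝ) - 1), by fun_prop⟩,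
    ⟨fun ω => max 0 (2 * (ω : ℝ) - 1), by fun_prop⟩]

theorem bf0 (ω : unitInterval) : bf 0 ω = max 0 (1 - 2 * (ω : ℝ)) := rfl
theorem bf1 (ω : unitInterval) :
    bf 1 ω = 1 - max 0 (1 - 2 * (ω : ℝ)) - max 0 (2 * (ω : ℝ) - 1) := rfl
theorem bf2 (ω : unitInterval) : bf 2 ω = max 0 (2 * (ω : ℝ) - 1) := rfl

theorem bf_sum (ω : unitInterval) : bf 0 ω + bf 1 ω + bf 2 ω = 1 := by
  rw [bf0, bf1, bf2]; ring

theorem bf_nonneg (i : Fin 3) (ω : unitInterval) : 0 ≤ bf i ω := by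
  have h0 := ω.2.1
  have h1 := ω.2.2
  fin_cases i
  · exact le_max_left _ _
  · show 0 ≤ bf 1 ω
    rw [bf1]
    rcases le_total (1 - 2 * (ω : ℝ)) 0 with h | h
    · rw [max_eq_left h, max_eq_right (by linarith)]; linarith
    · rw [max_eq_right h, max_eq_left (by linarith)]; linarith
  · exact le_max_left _ _

/-- the peak points -/
noncomputable def tau : Fin 3 → unitInterval :=
  ![0, ⟨1 / 2, by norm_num, by norm_num⟩, 1]

theorem bf_tau (i : Fin 3) : bf i (tau i) = 1 := by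
  fin_cases i
  · show bf 0 0 = 1
    rw [bf0]; norm_num
  · show bf 1 ⟨1 / 2, by norm_num, by norm_num⟩ = 1
    rw [bf1]; norm_num
  · show bf 2 1 = 1
    rw [bf2]; norm_num

theorem bf_le_one (i : Fin 3) (ω : unitInterval) : bf i ω ≤ 1 := by
  have h := bf_sum ω
  have h0 := bf_nonneg 0 ω
  have h1 := bf_nonneg 1 ω
  have h2 := bf_nonneg 2 ω
  fin_cases i
  · show bf 0 ω ≤ 1; linarith
  · show bf 1 ω ≤ 1; linarith
  · show bf 2 ω ≤ 1; linarith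

theorem bb_norm_le (i : Fin 3) : ‖toK 𝕜 (bf i)‖ ≤ 1 := by
  apply (ContinuousMap.norm_le _ zero_le_one).2
  intro ω
  rw [toK_apply, RCLike.norm_ofReal, abs_of_nonneg (bf_nonneg i ω)]
  exact bf_le_one i ω

/-- the coefficients are summable with norm one -/
theorem sum_cc_le (g : C(KY 𝕜, 𝕜))
    (hg : ∀ s, g (s, 0) + g (s, 1) = 2 * ∑ i, cc 𝕜 i g * (s i : 𝕜)) :
    ∑ i, ‖cc 𝕜 i g‖ ≤ ‖g‖ := by
  choose c hc1 hc2 using fun i => exists_phase (cc 𝕜 i g)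
  let s : SS 𝕜 := fun i => ⟨c i, by rw [mem_sphere_zero_iff_norm]; exact hc1 i⟩
  have h1 := hg s
  have h2 : ∑ i, cc 𝕜 i g * (s i : 𝕜) = ((∑ i, ‖cc 𝕜 i g‖ : ℝ) : 𝕜) := by
    push_cast
    apply Finset.sum_congr rfl
    intro i _
    rw [mul_comm]
    exact hc2 i
  rw [h2] at h1
  have h3 : ‖g (s, 0) + g (s, 1)‖ ≤ 2 * ‖g‖ := by
    calc _ ≤ ‖g (s, 0)‖ + ‖g (s, 1)‖ := norm_add_le _ _
      _ ≤ ‖g‖ + ‖g‖ := add_le_add (g.norm_coe_le_norm _) (g.norm_coe_le_norm _)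
      _ = _ := by ring
  rw [h1, norm_mul, RCLike.norm_ofReal, abs_of_nonneg (by positivity)] at h3
  have h4 : ‖(2 : 𝕜)‖ = 2 := by simp
  rw [h4] at h3
  linarith

/-- the slice functional on `C(K)` -/
noncomputable def ysC : C(KY 𝕜, 𝕜) →L[𝕜] 𝕜 :=
  ((8 : 𝕜)⁻¹) • ((ContinuousMap.evalCLM 𝕜 ((pA 𝕜, 0) : KY 𝕜) -
      ContinuousMap.evalCLM 𝕜 ((pA 𝕜, 1) : KY 𝕜)) +
    ∑ i, (ContinuousMap.evalCLM 𝕜 ((pB 𝕜 i, 0) : KY 𝕜) -
      ContinuousMap.evalCLM 𝕜 ((pB 𝕜 i, 1) : KY 𝕜)))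

theorem ysC_apply (g : C(KY 𝕜, 𝕜)) : ysC g = (8 : 𝕜)⁻¹ * ((g (pA 𝕜, 0) - g (pA 𝕜, 1)) +
    ∑ i, (g (pB 𝕜 i, 0) - g (pB 𝕜 i, 1))) := by
  unfold ysC
  rw [smul_apply, add_apply, sum_apply]
  rfl

theorem ysC_norm_le (g : C(KY 𝕜, 𝕜)) : ‖ysC g‖ ≤ ‖g‖ := by
  rw [ysC_apply, norm_mul, norm_inv]
  have h8 : ‖(8 : 𝕜)‖ = 8 := by simp
  rw [h8]
  have hd : ∀ t t' : KY 𝕜, ‖g t - g t'‖ ≤ 2 * ‖g‖ := by
    intro t t'
    calc _ ≤ ‖g t‖ + ‖g t'‖ := norm_sub_le _ _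
      _ ≤ ‖g‖ + ‖g‖ := add_le_add (g.norm_coe_le_norm _) (g.norm_coe_le_norm _)
      _ = _ := by ring
  have h1 : ‖(g (pA 𝕜, 0) - g (pA 𝕜, 1)) + ∑ i, (g (pB 𝕜 i, 0) - g (pB 𝕜 i, 1))‖ ≤ 8 * ‖g‖ := by
    calc _ ≤ ‖g (pA 𝕜, 0) - g (pA 𝕜, 1)‖ + ‖∑ i, (g (pB 𝕜 i, 0) - g (pB 𝕜 i, 1))‖ :=
          norm_add_le _ _
      _ ≤ 2 * ‖g‖ + ∑ i : Fin 3, 2 * ‖g‖ := by
          apply add_le_add (hd _ _)
          exact (norm_sum_le _ _).trans (Finset.sum_le_sum fun i _ => hd _ _)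
      _ = 8 * ‖g‖ := by simp; ring
  rw [inv_mul_le_iff₀ (by norm_num)]
  exact h1

/-- if the slice functional is almost attained, the ends almost cancel -/
theorem ends_small {g : C(KY 𝕜, 𝕜)} (hg : ‖g‖ ≤ 1) (h : 1 - 1 / 10000 ≤ ‖ysC g‖) :
    (‖g (pA 𝕜, 0) + g (pA 𝕜, 1)‖ ≤ 8 / 100) ∧
      ∀ i, ‖g (pB 𝕜 i, 0) + g (pB 𝕜 i, 1)‖ ≤ 8 / 100 := by
  obtain ⟨p, hp1, hp2⟩ := exists_phase (ysC g)
  have hgx : ∀ t, ‖p * g t‖ ≤ 1 := by
    intro t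
    rw [norm_mul, hp1, one_mul]
    exact (g.norm_coe_le_norm t).trans hg
  have hre : ∀ t, RCLike.re (p * g t) ≤ 1 := fun t => (RCLike.re_le_norm _).trans (hgx t)
  have hre' : ∀ t, -1 ≤ RCLike.re (p * g t) := fun t => by
    have := RCLike.abs_re_le_norm (p * g t)
    have := neg_le_of_abs_le (this.trans (hgx t))
    exact this
  have h8 : (8 : ℝ) * ‖ysC g‖ = RCLike.re (p * g (pA 𝕜, 0)) - RCLike.re (p * g (pA 𝕜, 1)) +
      ∑ i, (RCLike.re (p * g (pB 𝕜 i, 0)) - RCLike.re (p * g (pB 𝕜 i, 1))) := by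
    have h1 : (8 : 𝕜) * (p * ysC g) = (p * g (pA 𝕜, 0)) - (p * g (pA 𝕜, 1)) +
      ∑ i, ((p * g (pB 𝕜 i, 0)) - (p * g (pB 𝕜 i, 1))) := by
      rw [ysC_apply]
      simp_rw [← mul_sub]
      rw [← Finset.mul_sum]
      have : (8 : 𝕜) ≠ 0 := by norm_num
      field_simp
    rw [hp2] at h1
    have h2 := congrArg RCLike.re h1
    rw [map_add, map_sub, map_sum] at h2
    simp_rw [map_sub] at h2
    rw [← h2]
    have : (8 : 𝕜) * (‖ysC g‖ : 𝕜) = ((8 * ‖ysC g‖ : ℝ) : 𝕜) := by push_cast; ring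
    rw [this, RCLike.ofReal_re]
  rw [Fin.sum_univ_three] at h8
  -- closeness to one
  have hclose : ∀ v : 𝕜, ‖v‖ ≤ 1 → 1 - 8 / 10000 ≤ RCLike.re v → ‖v - 1‖ ≤ 4 / 100 := by
    intro v hv hv2
    have h1 : ‖v - 1‖ ^ 2 = ‖v‖ ^ 2 - 2 * RCLike.re v + 1 := by
      have := @norm_sub_sq 𝕜 𝕜 _ _ _ v 1
      rw [this]
      simp
    have h2 : ‖v - 1‖ ^ 2 ≤ (4 / 100) ^ 2 := by
      rw [h1]
      nlinarith [norm_nonneg v]
    exact le_of_sq_le_sq h2 (by norm_num)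
  have hfin : ∀ s : SS 𝕜, 1 - 8 / 10000 ≤ RCLike.re (p * g (s, 0)) →
      RCLike.re (p * g (s, 1)) ≤ -(1 - 8 / 10000) → ‖g (s, 0) + g (s, 1)‖ ≤ 8 / 100 := by
    intro s h1 h2
    have h3 := hclose _ (hgx (s, 0)) h1
    have h4 : ‖-(p * g (s, 1)) - 1‖ ≤ 4 / 100 := by
      apply hclose
      · rw [norm_neg]; exact hgx _
      · rw [map_neg]; linarith
    have h5 : ‖g (s, 0) + g (s, 1)‖ = ‖(p * g (s, 0) - 1) - (-(p * g (s, 1)) - 1)‖ := by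
      have : (p * g (s, 0) - 1) - (-(p * g (s, 1)) - 1) = p * (g (s, 0) + g (s, 1)) := by ring
      rw [this, norm_mul, hp1, one_mul]
    rw [h5]
    exact (norm_sub_le _ _).trans (by linarith)
  have a0 := hre (pA 𝕜, 0)
  have a1 := hre' (pA 𝕜, 1)
  have b00 := hre (pB 𝕜 0, 0)
  have b01 := hre' (pB 𝕜 0, 1)
  have b10 := hre (pB 𝕜 1, 0)
  have b11 := hre' (pB 𝕜 1, 1)
  have b20 := hre (pB 𝕜 2, 0)
  have b21 := hre' (pB 𝕜 2, 1)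
  constructor
  · apply hfin <;> linarith
  · intro i
    fin_cases i
    · show ‖g (pB 𝕜 0, 0) + g (pB 𝕜 0, 1)‖ ≤ 8 / 100
      apply hfin <;> linarith
    · show ‖g (pB 𝕜 1, 0) + g (pB 𝕜 1, 1)‖ ≤ 8 / 100
      apply hfin <;> linarith
    · show ‖g (pB 𝕜 2, 0) + g (pB 𝕜 2, 1)‖ ≤ 8 / 100
      apply hfin <;> linarith

theorem cc_small {g : C(KY 𝕜, 𝕜)} (hg : ‖g‖ ≤ 1) (h : 1 - 1 / 10000 ≤ ‖ysC g‖) (i : Fin 3) :
    ‖cc 𝕜 i g‖ ≤ 4 / 100 := by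
  obtain ⟨hA, hB⟩ := ends_small hg h
  unfold cc
  rw [smul_apply, sub_apply, ends_apply, ends_apply, norm_smul, norm_inv]
  have h4 : ‖(4 : 𝕜)‖ = 4 := by simp
  rw [h4, inv_mul_le_iff₀ (by norm_num)]
  exact (norm_sub_le _ _).trans (by linarith [hB i])

/-- the function `1 - 2 ω` -/
noncomputable def rC (𝕜 : Type) [RCLike 𝕜] : C(KY 𝕜, 𝕜) :=
  ⟨fun t => (((1 - 2 * (t.2 : ℝ) : ℝ)) : 𝕜), by fun_prop⟩

theorem rC_apply (t : KY 𝕜) : rC 𝕜 t = (((1 - 2 * (t.2 : ℝ) : ℝ)) : 𝕜) := rfl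

theorem rC_zero (s : SS 𝕜) : rC 𝕜 (s, 0) = 1 := by rw [rC_apply]; simp

theorem rC_one (s : SS 𝕜) : rC 𝕜 (s, 1) = -1 := by
  rw [rC_apply]
  have : (1 - 2 * (((s, (1 : unitInterval)) : KY 𝕜).2 : ℝ)) = -1 := by
    simp only [Set.Icc.coe_one]; norm_num
  rw [this]; simp

theorem rC_norm_le : ‖rC 𝕜‖ ≤ 1 := by
  apply (ContinuousMap.norm_le _ zero_le_one).2
  intro t
  rw [rC_apply, RCLike.norm_ofReal, abs_le]
  have h0 := t.2.2.1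
  have h1 := t.2.2.2
  constructor <;> linarith

theorem ysC_rC : ysC (rC 𝕜) = 1 := by
  rw [ysC_apply]
  simp only [rC_zero, rC_one]
  simp
  norm_num

set_option maxHeartbeats 4000000 in
/-- The Daugavet property fails for the projective tensor product. -/
theorem not_daugavet {Z : Type} [NormedAddCommGroup Z] [NormedSpace 𝕜 Z]
    (J : Z →ₗᵢ[𝕜] C(KY 𝕜, 𝕜)) (e : Fin 3 → Z) (he : ∀ i, J (e i) = epsC 𝕜 i)
    (hmem : ∀ g : C(KY 𝕜, 𝕜), (∀ s, g (s, 0) + g (s, 1) = 0) → ∃ z, J z = g)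
    (hrep : ∀ z s, J z (s, 0) + J z (s, 1) = 2 * ∑ i, cc 𝕜 i (J z) * (s i : 𝕜)) :
    ¬ Daugavet 𝕜 (CompletedProj 𝕜 C(unitInterval, 𝕜) Z) := by
  intro hD
  have hen : ∀ i, ‖e i‖ ≤ 1 := by
    intro i
    rw [← J.norm_map, he]
    exact epsC_norm_le i
  -- the element `z₀`
  set z₀ : CompletedProj 𝕜 C(unitInterval, 𝕜) Z := ∑ i, tm 𝕜 (toK 𝕜 (bf i)) (e i) with hz₀
  -- the functional `V`
  obtain ⟨V, hV, hVn⟩ : ∃ V : CompletedProj 𝕜 C(unitInterval, 𝕜) Z →L[𝕜] 𝕜,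
      (∀ x y, V (tm 𝕜 x y) = ∑ i, cc 𝕜 i (J y) * x (tau i)) ∧ ‖V‖ ≤ 1 := by
    let B : C(unitInterval, 𝕜) →ₗ[𝕜] Z →ₗ[𝕜] 𝕜 := LinearMap.mk₂ 𝕜
      (fun x y => ∑ i, cc 𝕜 i (J y) * x (tau i))
      (by
        intro x x' y
        rw [← Finset.sum_add_distrib]
        exact Finset.sum_congr rfl fun i _ => by rw [ContinuousMap.add_apply]; ring)
      (by
        intro c x y
        rw [smul_eq_mul, Finset.mul_sum]
        exact Finset.sum_congr rfl fun i _ => by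
          rw [ContinuousMap.smul_apply, smul_eq_mul]; ring)
      (by
        intro x y y'
        rw [← Finset.sum_add_distrib]
        exact Finset.sum_congr rfl fun i _ => by rw [map_add, map_add]; ring)
      (by
        intro c x y
        rw [smul_eq_mul, Finset.mul_sum]
        exact Finset.sum_congr rfl fun i _ => by rw [map_smul, map_smul, smul_eq_mul]; ring)
    obtain ⟨V, hV, hVn⟩ := exists_lift B zero_le_one (by
      intro x y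
      show ‖∑ i, cc 𝕜 i (J y) * x (tau i)‖ ≤ 1 * (‖x‖ * ‖y‖)
      calc _ ≤ ∑ i, ‖cc 𝕜 i (J y) * x (tau i)‖ := norm_sum_le _ _
        _ ≤ ∑ i, ‖cc 𝕜 i (J y)‖ * ‖x‖ := by
            apply Finset.sum_le_sum
            intro i _
            rw [norm_mul]
            exact mul_le_mul_of_nonneg_left (x.norm_coe_le_norm _) (norm_nonneg _)
        _ = (∑ i, ‖cc 𝕜 i (J y)‖) * ‖x‖ := by rw [Finset.sum_mul]
        _ ≤ ‖J y‖ * ‖x‖ := mul_le_mul_of_nonneg_right (sum_cc_le _ (hrep y)) (norm_nonneg _)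
        _ = 1 * (‖x‖ * ‖y‖) := by rw [J.norm_map]; ring)
    exact ⟨V, fun x y => hV x y, hVn⟩
  have hVz : V z₀ = 3 := by
    rw [hz₀, map_sum]
    have h1 : ∀ i, V (tm 𝕜 (toK 𝕜 (bf i)) (e i)) = 1 := by
      intro i
      rw [hV, he]
      simp only [cc_eps, ite_mul, one_mul, zero_mul]
      rw [Finset.sum_ite_eq' Finset.univ i, if_pos (Finset.mem_univ i), toK_apply, bf_tau]
      simp
    simp_rw [h1]
    simp
  have hz3 : 3 ≤ ‖z₀‖ := by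
    have h1 : ‖V z₀‖ ≤ ‖V‖ * ‖z₀‖ := V.le_opNorm _
    rw [hVz] at h1
    have h2 : ‖(3 : 𝕜)‖ = 3 := by simp
    rw [h2] at h1
    calc (3:ℝ) ≤ ‖V‖ * ‖z₀‖ := h1
      _ ≤ 1 * ‖z₀‖ := mul_le_mul_of_nonneg_right hVn (norm_nonneg _)
      _ = ‖z₀‖ := one_mul _
  -- the functional `G`
  obtain ⟨G, hG, hGn⟩ : ∃ G : CompletedProj 𝕜 C(unitInterval, 𝕜) Z →L[𝕜] 𝕜,
      (∀ x y, G (tm 𝕜 x y) = x 0 * ysC (J y)) ∧ ‖G‖ ≤ 1 := by
    let B : C(unitInterval, 𝕜) →ₗ[𝕜] Z →ₗ[𝕜] 𝕜 := LinearMap.mk₂ 𝕜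
      (fun x y => x 0 * ysC (J y))
      (by intro x x' y; rw [ContinuousMap.add_apply]; ring)
      (by intro c x y; rw [ContinuousMap.smul_apply, smul_eq_mul, smul_eq_mul]; ring)
      (by intro x y y'; rw [map_add, map_add]; ring)
      (by intro c x y; rw [map_smul, map_smul, smul_eq_mul, smul_eq_mul]; ring)
    obtain ⟨G, hG, hGn⟩ := exists_lift B zero_le_one (by
      intro x y
      show ‖x 0 * ysC (J y)‖ ≤ 1 * (‖x‖ * ‖y‖)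
      rw [norm_mul, one_mul]
      apply mul_le_mul (x.norm_coe_le_norm _) _ (norm_nonneg _) (norm_nonneg _)
      rw [← J.norm_map y]
      exact ysC_norm_le _)
    exact ⟨G, fun x y => hG x y, hGn⟩
  obtain ⟨r, hr⟩ := hmem (rC 𝕜) (fun s => by rw [rC_zero, rC_one]; simp)
  have hGr : G (tm 𝕜 1 r) = 1 := by
    rw [hG, hr, ysC_rC]; simp
  have hrn : ‖r‖ ≤ 1 := by rw [← J.norm_map, hr]; exact rC_norm_le
  have hG1 : 1 ≤ ‖G‖ := by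
    have h1 : ‖G (tm 𝕜 1 r)‖ ≤ ‖G‖ * ‖tm 𝕜 (1 : C(unitInterval, 𝕜)) r‖ := G.le_opNorm _
    rw [hGr, norm_one] at h1
    have h2 : ‖tm 𝕜 (1 : C(unitInterval, 𝕜)) r‖ ≤ 1 := by
      refine (norm_tm_le _ _).trans ?_
      exact mul_le_one₀ (by simp) (norm_nonneg _) hrn
    calc (1:ℝ) ≤ ‖G‖ * ‖tm 𝕜 (1 : C(unitInterval, 𝕜)) r‖ := h1
      _ ≤ ‖G‖ * 1 := mul_le_mul_of_nonneg_left h2 (norm_nonneg _)
      _ = ‖G‖ := mul_one _
  -- the operator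
  have hz0 : z₀ ≠ 0 := by
    intro h
    rw [h, norm_zero] at hz3
    linarith
  have hrank : LinearMap.rank ((G.smulRight z₀ :
      CompletedProj 𝕜 C(unitInterval, 𝕜) Z →L[𝕜] CompletedProj 𝕜 C(unitInterval, 𝕜) Z) :
      CompletedProj 𝕜 C(unitInterval, 𝕜) Z →ₗ[𝕜] CompletedProj 𝕜 C(unitInterval, 𝕜) Z) = 1 := by
    have hran : LinearMap.range ((G.smulRight z₀ :
      CompletedProj 𝕜 C(unitInterval, 𝕜) Z →L[𝕜] CompletedProj 𝕜 C(unitInterval, 𝕜) Z) :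
      CompletedProj 𝕜 C(unitInterval, 𝕜) Z →ₗ[𝕜] CompletedProj 𝕜 C(unitInterval, 𝕜) Z) =
        Submodule.span 𝕜 {z₀} := by
      apply le_antisymm
      · rintro _ ⟨w, rfl⟩
        exact Submodule.mem_span_singleton.2 ⟨G w, rfl⟩
      · rw [Submodule.span_singleton_le_iff_mem]
        exact ⟨tm 𝕜 1 r, by
          show G (tm 𝕜 1 r) • z₀ = z₀
          rw [hGr, one_smul]⟩
    unfold LinearMap.rank
    rw [hran, Module.rank_eq_one_iff_finrank_eq_one]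
    exact finrank_span_singleton hz0
  have hDT := hD (G.smulRight z₀) hrank
  rw [ContinuousLinearMap.norm_smulRight_apply] at hDT
  have hbig : 4 ≤ ‖ContinuousLinearMap.id 𝕜 (CompletedProj 𝕜 C(unitInterval, 𝕜) Z) +
      G.smulRight z₀‖ := by
    rw [hDT]
    nlinarith
  -- the upper bound
  have hcore : ∀ (x : C(unitInterval, 𝕜)) (y : Z), ‖x‖ ≤ 1 → ‖y‖ ≤ 1 →
      ‖tm 𝕜 x y + G (tm 𝕜 x y) • z₀‖ ≤ 4 - 1 / 10000 := by
    intro x y hx hy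
    by_contra hcon
    push Not at hcon
    obtain ⟨g, hg1, hg2⟩ := exists_dual_vector'' 𝕜 (tm 𝕜 x y + G (tm 𝕜 x y) • z₀)
    have hgb : ∀ (x' : C(unitInterval, 𝕜)) (y' : Z), ‖g (tm 𝕜 x' y')‖ ≤ ‖x'‖ * ‖y'‖ := by
      intro x' y'
      calc _ ≤ ‖g‖ * ‖tm 𝕜 x' y'‖ := g.le_opNorm _
        _ ≤ 1 * ‖tm 𝕜 x' y'‖ := mul_le_mul_of_nonneg_right hg1 (norm_nonneg _)
        _ ≤ ‖x'‖ * ‖y'‖ := by rw [one_mul]; exact norm_tm_le _ _
    set γ : 𝕜 := G (tm 𝕜 x y) with hγ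
    have hγ1 : ‖γ‖ ≤ ‖ysC (J y)‖ := by
      rw [hγ, hG, norm_mul]
      exact mul_le_of_le_one_left (norm_nonneg _) ((x.norm_coe_le_norm _).trans hx)
    have hJy : ‖J y‖ ≤ 1 := by rw [J.norm_map]; exact hy
    have hys1 : ‖ysC (J y)‖ ≤ 1 := (ysC_norm_le _).trans hJy
    have hw1 : ‖g (tm 𝕜 x y)‖ ≤ 1 := (hgb x y).trans (mul_le_one₀ hx (norm_nonneg _) hy)
    have hbe : ∀ i, ‖g (tm 𝕜 (toK 𝕜 (bf i)) (e i))‖ ≤ 1 := fun i =>
      (hgb _ _).trans (mul_le_one₀ (bb_norm_le i) (norm_nonneg _) (hen i))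
    have hζ : ‖g z₀‖ ≤ 3 := by
      rw [hz₀, map_sum]
      calc _ ≤ ∑ i, ‖g (tm 𝕜 (toK 𝕜 (bf i)) (e i))‖ := norm_sum_le _ _
        _ ≤ ∑ _i : Fin 3, (1:ℝ) := Finset.sum_le_sum fun i _ => hbe i
        _ = 3 := by simp
    have hsum : ‖tm 𝕜 x y + γ • z₀‖ ≤ ‖g (tm 𝕜 x y)‖ + ‖γ‖ * ‖g z₀‖ := by
      have h1 : ((‖tm 𝕜 x y + γ • z₀‖ : ℝ) : 𝕜) = g (tm 𝕜 x y) + γ * g z₀ := by
        rw [← hg2, map_add, map_smul, smul_eq_mul]
      have h2 : ‖((‖tm 𝕜 x y + γ • z₀‖ : ℝ) : 𝕜)‖ = ‖tm 𝕜 x y + γ • z₀‖ := by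
        rw [RCLike.norm_ofReal, abs_of_nonneg (norm_nonneg _)]
      rw [← h2, h1]
      exact (norm_add_le _ _).trans (by rw [norm_mul])
    have hγle : ‖γ‖ ≤ 1 := hγ1.trans hys1
    have hw : 1 - 1 / 10000 < ‖g (tm 𝕜 x y)‖ := by
      nlinarith [norm_nonneg γ, norm_nonneg (g z₀)]
    have hζ3 : 3 - 1 / 10000 < ‖g z₀‖ := by
      nlinarith [norm_nonneg γ, norm_nonneg (g z₀)]
    have hγ3 : 1 - 1 / 10000 ≤ ‖γ‖ := by
      nlinarith [norm_nonneg γ, norm_nonneg (g z₀)]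
    -- the bilinear form
    obtain ⟨p, hp1, hp2⟩ := exists_phase (g z₀)
    let W : C(unitInterval, 𝕜) →ₗ[𝕜] Z →ₗ[𝕜] 𝕜 := LinearMap.mk₂ 𝕜
      (fun x y => p * g (tm 𝕜 x y))
      (by intro x x' y; rw [tm_add_left, map_add, mul_add])
      (by intro c x y; rw [tm_smul_left, map_smul, smul_eq_mul, smul_eq_mul]; ring)
      (by intro x y y'; rw [tm_add_right, map_add, mul_add])
      (by intro c x y; rw [tm_smul_right, map_smul, smul_eq_mul, smul_eq_mul]; ring)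
    have hWd : ∀ x' y', W x' y' = p * g (tm 𝕜 x' y') := fun _ _ => rfl
    have hWn : ∀ x' y', ‖W x' y'‖ = ‖g (tm 𝕜 x' y')‖ := by
      intro x' y'; rw [hWd, norm_mul, hp1, one_mul]
    have hWb : ∀ x' y', ‖W x' y'‖ ≤ ‖x'‖ * ‖y'‖ := by
      intro x' y'; rw [hWn]; exact hgb x' y'
    have hWs : RCLike.re (W (toK 𝕜 (bf 0)) (e 0)) + RCLike.re (W (toK 𝕜 (bf 1)) (e 1)) +
        RCLike.re (W (toK 𝕜 (bf 2)) (e 2)) = ‖g z₀‖ := by
      have h1 : W (toK 𝕜 (bf 0)) (e 0) + W (toK 𝕜 (bf 1)) (e 1) + W (toK 𝕜 (bf 2)) (e 2) =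
          p * g z₀ := by
        rw [hWd, hWd, hWd, hz₀, Fin.sum_univ_three, map_add, map_add]; ring
      rw [hp2] at h1
      have h2 := congrArg RCLike.re h1
      rw [map_add, map_add, RCLike.ofReal_re] at h2
      exact h2
    have hr1 : ∀ i, RCLike.re (W (toK 𝕜 (bf i)) (e i)) ≤ 1 := fun i =>
      (RCLike.re_le_norm _).trans (by rw [hWn]; exact hbe i)
    have hre : ∀ i, 1 - 1 / 10000 ≤ RCLike.re (W (toK 𝕜 (bf i)) (e i)) := by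
      intro i
      have r0 := hr1 0
      have r1 := hr1 1
      have r2 := hr1 2
      fin_cases i
      · show _ ≤ RCLike.re (W (toK 𝕜 (bf 0)) (e 0)); linarith
      · show _ ≤ RCLike.re (W (toK 𝕜 (bf 1)) (e 1)); linarith
      · show _ ≤ RCLike.re (W (toK 𝕜 (bf 2)) (e 2)); linarith
    -- decomposition of `y`
    have hcs : ∀ i, ‖cc 𝕜 i (J y)‖ ≤ 4 / 100 := cc_small hJy (hγ3.trans hγ1)
    set y₁ : Z := ∑ i, cc 𝕜 i (J y) • e i with hy₁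
    set ψ : Z := y - y₁ with hψ
    have hy₁n : ‖y₁‖ ≤ 12 / 100 := by
      calc _ ≤ ∑ i, ‖cc 𝕜 i (J y) • e i‖ := norm_sum_le _ _
        _ ≤ ∑ _i : Fin 3, (4 / 100 : ℝ) := by
            apply Finset.sum_le_sum
            intro i _
            rw [norm_smul]
            calc _ ≤ (4 / 100) * 1 := mul_le_mul (hcs i) (hen i) (norm_nonneg _) (by norm_num)
              _ = _ := by norm_num
        _ = 12 / 100 := by simp; norm_num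
    have hψn : ‖((2 : 𝕜)⁻¹) • ψ‖ ≤ 1 := by
      rw [norm_smul, norm_inv]
      have h2 : ‖(2 : 𝕜)‖ = 2 := by simp
      rw [h2, inv_mul_le_iff₀ (by norm_num)]
      calc ‖ψ‖ ≤ ‖y‖ + ‖y₁‖ := norm_sub_le _ _
        _ ≤ _ := by linarith
    have hψ0 : ∀ s, J (((2 : 𝕜)⁻¹) • ψ) (s, 0) + J (((2 : 𝕜)⁻¹) • ψ) (s, 1) = 0 := by
      intro s
      have h1 := hrep y s
      have h2 : ∀ ω, J y₁ (s, ω) = ∑ i, cc 𝕜 i (J y) * (s i : 𝕜) := by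
        intro ω
        rw [hy₁, map_sum, ContinuousMap.sum_apply]
        apply Finset.sum_congr rfl
        intro i _
        rw [map_smul, he, ContinuousMap.smul_apply, epsC_apply, smul_eq_mul]
      have h3 : ∀ ω, J (((2 : 𝕜)⁻¹) • ψ) (s, ω) = (2 : 𝕜)⁻¹ * (J y (s, ω) - J y₁ (s, ω)) := by
        intro ω
        rw [map_smul, hψ, map_sub, ContinuousMap.smul_apply, ContinuousMap.sub_apply, smul_eq_mul]
      rw [h3, h3, h2, h2, ← mul_add]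
      have h4 : J y (s, 0) - ∑ i, cc 𝕜 i (J y) * (s i : 𝕜) +
          (J y (s, 1) - ∑ i, cc 𝕜 i (J y) * (s i : 𝕜)) =
          (J y (s, 0) + J y (s, 1)) - 2 * ∑ i, cc 𝕜 i (J y) * (s i : 𝕜) := by ring
      rw [h4, h1, sub_self, mul_zero]
    have hrig := rigid J e he hmem W hWb bf bf_nonneg bf_sum (δ := 1 / 10000) (by norm_num) hre x
      hx _ hψn hψ0
    have hsq : Real.sqrt (1 / 10000) = 1 / 100 := by
      rw [show (1 / 10000 : ℝ) = (1 / 100) ^ 2 by norm_num]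
      exact Real.sqrt_sq (by norm_num)
    rw [hsq, map_smul, norm_smul, norm_inv] at hrig
    have h2 : ‖(2 : 𝕜)‖ = 2 := by simp
    rw [h2] at hrig
    have hWy : W x y = W x y₁ + W x ψ := by
      rw [← map_add]; congr 1; rw [hψ]; abel
    have hWy₁ : ‖W x y₁‖ ≤ 12 / 100 := by
      calc _ ≤ ‖x‖ * ‖y₁‖ := hWb _ _
        _ ≤ 1 * (12 / 100) := mul_le_mul hx hy₁n (norm_nonneg _) zero_le_one
        _ = _ := one_mul _
    have hfin : ‖W x y‖ ≤ 12 / 100 + 24 / 100 := by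
      rw [hWy]
      refine (norm_add_le _ _).trans (add_le_add hWy₁ ?_)
      linarith
    rw [hWn] at hfin
    linarith
  have hsmall : ‖ContinuousLinearMap.id 𝕜 (CompletedProj 𝕜 C(unitInterval, 𝕜) Z) +
      G.smulRight z₀‖ ≤ 4 - 1 / 10000 := by
    apply opNorm_le _ (by norm_num)
    intro x y
    show ‖tm 𝕜 x y + G (tm 𝕜 x y) • z₀‖ ≤ _
    by_cases hx : x = 0
    · have : tm 𝕜 x y = 0 := by
        apply norm_le_zero_iff.1
        refine (norm_tm_le x y).trans ?_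
        rw [hx, norm_zero, zero_mul]
      rw [this, map_zero, zero_smul, add_zero, norm_zero]
      positivity
    by_cases hy : y = 0
    · have : tm 𝕜 x y = 0 := by
        apply norm_le_zero_iff.1
        refine (norm_tm_le x y).trans ?_
        rw [hy, norm_zero, mul_zero]
      rw [this, map_zero, zero_smul, add_zero, norm_zero]
      positivity
    have hxn : (‖x‖ : 𝕜) ≠ 0 := by simpa using hx
    have hyn : (‖y‖ : 𝕜) ≠ 0 := by simpa using hy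
    have hxn' : ‖x‖ ≠ 0 := by simpa using hx
    have hyn' : ‖y‖ ≠ 0 := by simpa using hy
    have h1 := hcore (((‖x‖ : 𝕜)⁻¹) • x) (((‖y‖ : 𝕜)⁻¹) • y)
      (by rw [norm_smul, norm_inv, RCLike.norm_ofReal, abs_norm, inv_mul_cancel₀ hxn'])
      (by rw [norm_smul, norm_inv, RCLike.norm_ofReal, abs_norm, inv_mul_cancel₀ hyn'])
    have h2 : tm 𝕜 x y + G (tm 𝕜 x y) • z₀ = ((‖x‖ : 𝕜) * (‖y‖ : 𝕜)) •
        (tm 𝕜 (((‖x‖ : 𝕜)⁻¹) • x) (((‖y‖ : 𝕜)⁻¹) • y) +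
          G (tm 𝕜 (((‖x‖ : 𝕜)⁻¹) • x) (((‖y‖ : 𝕜)⁻¹) • y)) • z₀) := by
      rw [tm_smul_left, tm_smul_right, smul_smul, map_smul, smul_assoc, ← smul_add, smul_smul]
      have : (‖x‖ : 𝕜) * (‖y‖ : 𝕜) * ((‖x‖ : 𝕜)⁻¹ * (‖y‖ : 𝕜)⁻¹) = 1 := by
        field_simp
      rw [this, one_smul]
    rw [h2, norm_smul, norm_mul, RCLike.norm_ofReal, RCLike.norm_ofReal, abs_norm, abs_norm,
      mul_comm]
    exact mul_le_mul_of_nonneg_right h1 (by positivity)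
  linarith

end

end Pool.Agent.Lib.MP_2568bd_an
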