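import Pool.Agent.Lib.MP_2568bd_an.Space

/-!
# The rigidity estimate
-/

set_option autoImplicit false

namespace Pool.Agent.Lib.MP_2568bd_an

open Pool.Agent.MP_2568bd_an

section
variable {𝕜 : Type} [RCLike 𝕜]

/-- real functions as scalar functions -/
noncomputable def toK (𝕜 : Type) [RCLike 𝕜] (b : C(unitInterval, ℝ)) : C(unitInterval, 𝕜) :=
  ⟨fun ω => (b ω : 𝕜), by fun_prop⟩

theorem toK_apply (b : C(unitInterval, ℝ)) (ω : unitInterval) : toK 𝕜 b ω = (b ω : 𝕜) := rfl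

theorem epsC_norm_le (i : Fin 3) : ‖epsC 𝕜 i‖ ≤ 1 := by
  apply (ContinuousMap.norm_le _ zero_le_one).2
  intro t
  rw [epsC_apply]
  have := (t.1 i).2
  rw [mem_sphere_zero_iff_norm] at this
  exact this.le

/-- multiplication by `s_i * conj s_j` -/
noncomputable def mulC (i j : Fin 3) (ψ : C(KY 𝕜, 𝕜)) : C(KY 𝕜, 𝕜) :=
  ⟨fun t => (t.1 i : 𝕜) * (starRingEnd 𝕜) (t.1 j : 𝕜) * ψ t, by
    have h1 : Continuous fun t : KY 𝕜 => (t.1 i : 𝕜) := by fun_prop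
    have h2 : Continuous fun t : KY 𝕜 => (starRingEnd 𝕜) (t.1 j : 𝕜) :=
      RCLike.continuous_conj.comp (by fun_prop)
    exact (h1.mul h2).mul ψ.continuous⟩

theorem mulC_apply (i j : Fin 3) (ψ : C(KY 𝕜, 𝕜)) (t : KY 𝕜) :
    mulC i j ψ t = (t.1 i : 𝕜) * (starRingEnd 𝕜) (t.1 j : 𝕜) * ψ t := rfl

theorem scal_ineq {A B t : ℝ} (h : A * A + B * B = 4) :
    A + t * B ≤ 2 + t ^ 2 := by
  by_contra hcon
  push Not at hcon
  have h1 : (2 + t ^ 2) ^ 2 < (A + t * B) ^ 2 :=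
    pow_lt_pow_left₀ hcon (by positivity) two_ne_zero
  nlinarith [sq_nonneg (B - t * A), sq_nonneg (t ^ 2)]

/-- pointwise estimate -/
theorem point_ineq {a c u v : 𝕜} (ha : a = 1 ∨ a = -1) (hc : c = 1 ∨ c = -1) (hu : ‖u‖ = 1)
    (hv : ‖v‖ = 1) {τ w : 𝕜} (hw : ‖w‖ ≤ 1) :
    ‖a * u + c * v + τ * ((u * (starRingEnd 𝕜) v - a * c) * w)‖ ≤ 2 + ‖τ‖ ^ 2 := by
  have ha2 : a * a = 1 := by rcases ha with rfl | rfl <;> norm_num
  have hc2 : c * c = 1 := by rcases hc with rfl | rfl <;> norm_num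
  have han : ‖a‖ = 1 := by rcases ha with rfl | rfl <;> simp
  have hcn : ‖c‖ = 1 := by rcases hc with rfl | rfl <;> simp
  have hvv : (starRingEnd 𝕜) v * v = 1 := by rw [RCLike.conj_mul, hv]; simp
  have h1 : ‖u * (starRingEnd 𝕜) v - a * c‖ = ‖a * u - c * v‖ := by
    have h2 : (a * v) * (u * (starRingEnd 𝕜) v - a * c) = a * u - c * v := by
      calc (a * v) * (u * (starRingEnd 𝕜) v - a * c)
          = a * u * ((starRingEnd 𝕜) v * v) - (a * a) * c * v := by ring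
        _ = a * u - c * v := by rw [hvv, ha2]; ring
    rw [← h2, norm_mul, norm_mul, han, hv]; ring
  have h3 := parallelogram_law_with_norm 𝕜 (a * u) (c * v)
  rw [norm_mul a u, norm_mul c v, han, hcn, hu, hv] at h3
  have h4 := scal_ineq (A := ‖a * u + c * v‖) (B := ‖a * u - c * v‖) (t := ‖τ‖) (by linarith)
  calc ‖a * u + c * v + τ * ((u * (starRingEnd 𝕜) v - a * c) * w)‖
      ≤ ‖a * u + c * v‖ + ‖τ * ((u * (starRingEnd 𝕜) v - a * c) * w)‖ := norm_add_le _ _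
    _ = ‖a * u + c * v‖ + ‖τ‖ * (‖a * u - c * v‖ * ‖w‖) := by rw [norm_mul, norm_mul, h1]
    _ ≤ ‖a * u + c * v‖ + ‖τ‖ * (‖a * u - c * v‖ * 1) := by
        have := mul_le_mul_of_nonneg_left hw (norm_nonneg (a * u - c * v))
        have := mul_le_mul_of_nonneg_left this (norm_nonneg τ)
        linarith
    _ ≤ _ := by rw [mul_one]; exact h4

/-- The rigidity estimate on one piece. -/
theorem rigid_piece {Z : Type} [NormedAddCommGroup Z] [NormedSpace 𝕜 Z]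
    (J : Z →ₗᵢ[𝕜] C(KY 𝕜, 𝕜)) (e : Fin 3 → Z) (he : ∀ i, J (e i) = epsC 𝕜 i)
    (W : C(unitInterval, 𝕜) →ₗ[𝕜] Z →ₗ[𝕜] 𝕜)
    (hW : ∀ x y, ‖W x y‖ ≤ ‖x‖ * ‖y‖) (b : Fin 3 → C(unitInterval, ℝ))
    (hb0 : ∀ i ω, 0 ≤ b i ω) {δ : ℝ} (hδ : 0 < δ)
    (hre : ∀ i, 1 - δ ≤ RCLike.re (W (toK 𝕜 (b i)) (e i)))
    {i j k : Fin 3} (hbs : ∀ ω, b i ω + b j ω + b k ω = 1)
    (ξ : C(unitInterval, 𝕜)) (hξ : ∀ ω, ‖ξ ω‖ ≤ b k ω)
    (ψ : Z) (hψ : ‖ψ‖ ≤ 1) (h : Z) (hh : J h = mulC i j (J ψ)) :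
    ‖W ξ ψ‖ ≤ 4 * Real.sqrt δ := by
  have hen : ∀ i, ‖e i‖ ≤ 1 := by
    intro i
    rw [← J.norm_map, he]
    exact epsC_norm_le i
  have hsq : 0 < Real.sqrt δ := Real.sqrt_pos.2 hδ
  have hsq2 : Real.sqrt δ * Real.sqrt δ = δ := Real.mul_self_sqrt hδ.le
  -- norms of functions on the interval
  have hnorm : ∀ (x : C(unitInterval, 𝕜)), (∀ ω, ‖x ω‖ ≤ 1) → ‖x‖ ≤ 1 := fun x hx =>
    (ContinuousMap.norm_le _ zero_le_one).2 hx
  -- small off-diagonal values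
  have hoff : ∀ (l : Fin 3) (r : C(unitInterval, 𝕜)), (∀ ω, b l ω + ‖r ω‖ ≤ 1) →
      ‖W r (e l)‖ ≤ δ := by
    intro l r hr
    obtain ⟨c1, hc1, hc1'⟩ := exists_phase (W (toK 𝕜 (b l)) (e l))
    obtain ⟨c2, hc2, hc2'⟩ := exists_phase (W r (e l))
    have h1 : ‖c1 • toK 𝕜 (b l) + c2 • r‖ ≤ 1 := by
      apply hnorm
      intro ω
      rw [ContinuousMap.add_apply, ContinuousMap.smul_apply, ContinuousMap.smul_apply, toK_apply]
      calc _ ≤ ‖c1 • (b l ω : 𝕜)‖ + ‖c2 • r ω‖ := norm_add_le _ _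
        _ = b l ω + ‖r ω‖ := by
            rw [norm_smul, norm_smul, hc1, hc2, one_mul, one_mul, RCLike.norm_ofReal,
              abs_of_nonneg (hb0 l ω)]
        _ ≤ 1 := hr ω
    have h2 := hW (c1 • toK 𝕜 (b l) + c2 • r) (e l)
    rw [map_add, map_smul, map_smul, LinearMap.add_apply, LinearMap.smul_apply,
      LinearMap.smul_apply, smul_eq_mul, smul_eq_mul, hc1', hc2'] at h2
    have h3 : ‖((‖W (toK 𝕜 (b l)) (e l)‖ : 𝕜)) + ((‖W r (e l)‖ : 𝕜))‖ =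
        ‖W (toK 𝕜 (b l)) (e l)‖ + ‖W r (e l)‖ := by
      rw [← RCLike.ofReal_add, RCLike.norm_ofReal, abs_of_nonneg (by positivity)]
    rw [h3] at h2
    have h4 : ‖c1 • toK 𝕜 (b l) + c2 • r‖ * ‖e l‖ ≤ 1 :=
      mul_le_one₀ h1 (norm_nonneg _) (hen l)
    have h5 := (hre l).trans (RCLike.re_le_norm _)
    linarith
  -- main estimate for fixed signs
  have key : ∀ a c : 𝕜, (a = 1 ∨ a = -1) → (c = 1 ∨ c = -1) →
      ‖W (a • toK 𝕜 (b i) + c • toK 𝕜 (b j) + ξ) (h - (a * c) • ψ)‖ ≤ 4 * Real.sqrt δ := by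
    intro a c ha hc
    have ha2 : a * a = 1 := by rcases ha with rfl | rfl <;> norm_num
    have hc2 : c * c = 1 := by rcases hc with rfl | rfl <;> norm_num
    have han : ‖a‖ = 1 := by rcases ha with rfl | rfl <;> simp
    have hcn : ‖c‖ = 1 := by rcases hc with rfl | rfl <;> simp
    set η := a • toK 𝕜 (b i) + c • toK 𝕜 (b j) + ξ with hη
    have hηn : ‖η‖ ≤ 1 := by
      apply hnorm
      intro ω
      rw [hη, ContinuousMap.add_apply, ContinuousMap.add_apply, ContinuousMap.smul_apply,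
        ContinuousMap.smul_apply, toK_apply, toK_apply]
      calc _ ≤ ‖a • (b i ω : 𝕜) + c • (b j ω : 𝕜)‖ + ‖ξ ω‖ := norm_add_le _ _
        _ ≤ ‖a • (b i ω : 𝕜)‖ + ‖c • (b j ω : 𝕜)‖ + ‖ξ ω‖ := by
            gcongr; exact norm_add_le _ _
        _ = b i ω + b j ω + ‖ξ ω‖ := by
            rw [norm_smul, norm_smul, han, hcn, one_mul, one_mul, RCLike.norm_ofReal,
              RCLike.norm_ofReal, abs_of_nonneg (hb0 i ω), abs_of_nonneg (hb0 j ω)]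
        _ ≤ 1 := by linarith [hbs ω, hξ ω]
    have hi : ‖W (c • toK 𝕜 (b j) + ξ) (e i)‖ ≤ δ := by
      apply hoff
      intro ω
      rw [ContinuousMap.add_apply, ContinuousMap.smul_apply, toK_apply]
      calc _ ≤ b i ω + (‖c • (b j ω : 𝕜)‖ + ‖ξ ω‖) := by gcongr; exact norm_add_le _ _
        _ = b i ω + (b j ω + ‖ξ ω‖) := by
            rw [norm_smul, hcn, one_mul, RCLike.norm_ofReal, abs_of_nonneg (hb0 j ω)]
        _ ≤ 1 := by linarith [hbs ω, hξ ω]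
    have hj : ‖W (a • toK 𝕜 (b i) + ξ) (e j)‖ ≤ δ := by
      apply hoff
      intro ω
      rw [ContinuousMap.add_apply, ContinuousMap.smul_apply, toK_apply]
      calc _ ≤ b j ω + (‖a • (b i ω : 𝕜)‖ + ‖ξ ω‖) := by gcongr; exact norm_add_le _ _
        _ = b j ω + (b i ω + ‖ξ ω‖) := by
            rw [norm_smul, han, one_mul, RCLike.norm_ofReal, abs_of_nonneg (hb0 i ω)]
        _ ≤ 1 := by linarith [hbs ω, hξ ω]
    -- value at `q`
    set q : Z := a • e i + c • e j with hq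
    have hWq : W η q = (W (toK 𝕜 (b i)) (e i) + W (toK 𝕜 (b j)) (e j)) +
        (a * W (c • toK 𝕜 (b j) + ξ) (e i) + c * W (a • toK 𝕜 (b i) + ξ) (e j)) := by
      rw [hq, hη]
      simp only [map_add, map_smul, LinearMap.add_apply, LinearMap.smul_apply, smul_eq_mul]
      linear_combination (W (toK 𝕜 (b i)) (e i)) * ha2 + (W (toK 𝕜 (b j)) (e j)) * hc2
    have hlow : 2 - 4 * δ ≤ RCLike.re (W η q) := by
      rw [hWq, map_add, map_add, map_add]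
      have e1 : -δ ≤ RCLike.re (a * W (c • toK 𝕜 (b j) + ξ) (e i)) := by
        have := RCLike.abs_re_le_norm (a * W (c • toK 𝕜 (b j) + ξ) (e i))
        rw [norm_mul, han, one_mul] at this
        have := neg_le_of_abs_le this
        linarith
      have e2 : -δ ≤ RCLike.re (c * W (a • toK 𝕜 (b i) + ξ) (e j)) := by
        have := RCLike.abs_re_le_norm (c * W (a • toK 𝕜 (b i) + ξ) (e j))
        rw [norm_mul, hcn, one_mul] at this
        have := neg_le_of_abs_le this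
        linarith
      linarith [hre i, hre j]
    -- the perturbation
    set f : Z := h - (a * c) • ψ with hf
    obtain ⟨p, hp1, hp2⟩ := exists_phase (W η f)
    set t : ℝ := 2 * Real.sqrt δ with ht
    have ht0 : 0 < t := by positivity
    have hup : ‖q + ((t : 𝕜) * p) • f‖ ≤ 2 + t ^ 2 := by
      rw [← J.norm_map]
      apply (ContinuousMap.norm_le _ (by positivity)).2
      rintro ⟨s, ω⟩
      have hs1 : ‖(s i : 𝕜)‖ = 1 := mem_sphere_zero_iff_norm.1 (s i).2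
      have hs2 : ‖(s j : 𝕜)‖ = 1 := mem_sphere_zero_iff_norm.1 (s j).2
      have hψt : ‖J ψ (s, ω)‖ ≤ 1 :=
        ((J ψ).norm_coe_le_norm _).trans (by rw [J.norm_map]; exact hψ)
      have hval : J (q + ((t : 𝕜) * p) • f) (s, ω) =
          a * (s i : 𝕜) + c * (s j : 𝕜) + ((t : 𝕜) * p) *
            (((s i : 𝕜) * (starRingEnd 𝕜) (s j : 𝕜) - a * c) * J ψ (s, ω)) := by
        rw [hq, hf]
        simp only [map_add, map_smul, map_sub, he, hh,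
          ContinuousMap.add_apply, ContinuousMap.smul_apply, ContinuousMap.sub_apply, smul_eq_mul,
          epsC_apply, mulC_apply]
        ring
      rw [hval]
      have := point_ineq ha hc hs1 hs2 (τ := (t : 𝕜) * p) hψt
      have htn : ‖(t : 𝕜) * p‖ = t := by
        rw [norm_mul, hp1, mul_one, RCLike.norm_ofReal, abs_of_pos ht0]
      rw [htn] at this
      exact this
    have h1 := hW η (q + ((t : 𝕜) * p) • f)
    have h2 : ‖η‖ * ‖q + ((t : 𝕜) * p) • f‖ ≤ 2 + t ^ 2 := by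
      calc _ ≤ 1 * ‖q + ((t : 𝕜) * p) • f‖ := mul_le_mul_of_nonneg_right hηn (norm_nonneg _)
        _ ≤ _ := by rw [one_mul]; exact hup
    have h3 : RCLike.re (W η (q + ((t : 𝕜) * p) • f)) = RCLike.re (W η q) + t * ‖W η f‖ := by
      rw [map_add, map_smul, map_add, smul_eq_mul, mul_assoc, hp2, ← RCLike.ofReal_mul,
        RCLike.ofReal_re]
    have h4 := RCLike.re_le_norm (W η (q + ((t : 𝕜) * p) • f))
    rw [h3] at h4
    have h5 : t * ‖W η f‖ ≤ t ^ 2 + 4 * δ := by linarith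
    have h6 : t ^ 2 + 4 * δ = t * (4 * Real.sqrt δ) := by
      rw [ht]; nlinarith
    rw [h6] at h5
    exact le_of_mul_le_mul_left h5 ht0
  have k1 := key 1 1 (Or.inl rfl) (Or.inl rfl)
  have k2 := key 1 (-1) (Or.inl rfl) (Or.inr rfl)
  have k3 := key (-1) 1 (Or.inr rfl) (Or.inl rfl)
  have k4 := key (-1) (-1) (Or.inr rfl) (Or.inr rfl)
  have hsum : (4 : 𝕜) * W ξ ψ =
      -W ((1:𝕜) • toK 𝕜 (b i) + (1:𝕜) • toK 𝕜 (b j) + ξ) (h - ((1:𝕜) * 1) • ψ) +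
      W ((1:𝕜) • toK 𝕜 (b i) + (-1:𝕜) • toK 𝕜 (b j) + ξ) (h - ((1:𝕜) * (-1)) • ψ) +
      W ((-1:𝕜) • toK 𝕜 (b i) + (1:𝕜) • toK 𝕜 (b j) + ξ) (h - ((-1:𝕜) * 1) • ψ) -
      W ((-1:𝕜) • toK 𝕜 (b i) + (-1:𝕜) • toK 𝕜 (b j) + ξ) (h - ((-1:𝕜) * (-1)) • ψ) := by
    simp only [map_add, map_sub, map_smul, LinearMap.add_apply, LinearMap.smul_apply, smul_eq_mul]
    ring
  have h4 : ‖(4 : 𝕜) * W ξ ψ‖ = 4 * ‖W ξ ψ‖ := by
    rw [norm_mul]; congr 1; simp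
  have h5 : ‖(4 : 𝕜) * W ξ ψ‖ ≤ 16 * Real.sqrt δ := by
    rw [hsum]
    refine (norm_sub_le _ _).trans ?_
    refine (add_le_add_left ((norm_add_le _ _).trans (add_le_add_left (norm_add_le _ _) _)) _).trans ?_
    rw [norm_neg]
    linarith
  rw [h4] at h5
  linarith

/-- The rigidity estimate. -/
theorem rigid {Z : Type} [NormedAddCommGroup Z] [NormedSpace 𝕜 Z]
    (J : Z →ₗᵢ[𝕜] C(KY 𝕜, 𝕜)) (e : Fin 3 → Z) (he : ∀ i, J (e i) = epsC 𝕜 i)
    (hmem : ∀ g : C(KY 𝕜, 𝕜), (∀ s, g (s, 0) + g (s, 1) = 0) → ∃ z, J z = g)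
    (W : C(unitInterval, 𝕜) →ₗ[𝕜] Z →ₗ[𝕜] 𝕜)
    (hW : ∀ x y, ‖W x y‖ ≤ ‖x‖ * ‖y‖) (b : Fin 3 → C(unitInterval, ℝ))
    (hb0 : ∀ i ω, 0 ≤ b i ω) (hbs : ∀ ω, b 0 ω + b 1 ω + b 2 ω = 1) {δ : ℝ} (hδ : 0 < δ)
    (hre : ∀ i, 1 - δ ≤ RCLike.re (W (toK 𝕜 (b i)) (e i)))
    (x : C(unitInterval, 𝕜)) (hx : ‖x‖ ≤ 1) (ψ : Z) (hψ : ‖ψ‖ ≤ 1)
    (hψ0 : ∀ s, J ψ (s, 0) + J ψ (s, 1) = 0) :
    ‖W x ψ‖ ≤ 12 * Real.sqrt δ := by
  have hxω : ∀ ω, ‖x ω‖ ≤ 1 := fun ω => (x.norm_coe_le_norm ω).trans hx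
  have hle : ∀ (k : Fin 3) ω, ‖(toK 𝕜 (b k) * x) ω‖ ≤ b k ω := by
    intro k ω
    rw [ContinuousMap.mul_apply, toK_apply, norm_mul, RCLike.norm_ofReal, abs_of_nonneg (hb0 k ω)]
    exact mul_le_of_le_one_right (hb0 k ω) (hxω ω)
  have hdec : x = toK 𝕜 (b 0) * x + toK 𝕜 (b 1) * x + toK 𝕜 (b 2) * x := by
    ext ω
    rw [ContinuousMap.add_apply, ContinuousMap.add_apply, ContinuousMap.mul_apply,
      ContinuousMap.mul_apply, ContinuousMap.mul_apply, toK_apply, toK_apply, toK_apply,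
      ← add_mul, ← add_mul]
    have := hbs ω
    rw [← RCLike.ofReal_add, ← RCLike.ofReal_add, this]
    simp
  have hh : ∀ i j : Fin 3, ∃ h, J h = mulC i j (J ψ) := by
    intro i j
    apply hmem
    intro s
    rw [mulC_apply, mulC_apply, ← mul_add, hψ0, mul_zero]
  obtain ⟨h12, hh12⟩ := hh 1 2
  obtain ⟨h02, hh02⟩ := hh 0 2
  obtain ⟨h01, hh01⟩ := hh 0 1
  have h0 := rigid_piece J e he W hW b hb0 hδ hre (i := 1) (j := 2) (k := 0)
    (fun ω => by linarith [hbs ω]) _ (hle 0) ψ hψ h12 hh12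
  have h1 := rigid_piece J e he W hW b hb0 hδ hre (i := 0) (j := 2) (k := 1)
    (fun ω => by linarith [hbs ω]) _ (hle 1) ψ hψ h02 hh02
  have h2 := rigid_piece J e he W hW b hb0 hδ hre (i := 0) (j := 1) (k := 2)
    (fun ω => by linarith [hbs ω]) _ (hle 2) ψ hψ h01 hh01
  have hW3 : W x ψ = W (toK 𝕜 (b 0) * x) ψ + W (toK 𝕜 (b 1) * x) ψ + W (toK 𝕜 (b 2) * x) ψ := by
    conv_lhs => rw [hdec]
    rw [map_add, map_add, LinearMap.add_apply, LinearMap.add_apply]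
  rw [hW3]
  refine (norm_add_le _ _).trans ((add_le_add_left (norm_add_le _ _) _).trans ?_)
  linarith

end

end Pool.Agent.Lib.MP_2568bd_an
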