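import Pool.Agent.Lib.MP_2568bd_an.Daug

/-!
# The two spaces
-/

set_option autoImplicit false

namespace Pool.Agent.Lib.MP_2568bd_an

open Pool.Agent.MP_2568bd_an

section
variable (𝕜 : Type) [RCLike 𝕜]

/-- the unit sphere of the scalar field -/
abbrev Sph : Type := Metric.sphere (0 : 𝕜) 1

instance : CompactSpace (Sph 𝕜) := inferInstance

/-- three unimodular parameters -/
abbrev SS : Type := Fin 3 → Sph 𝕜

/-- the compact space -/
abbrev KY : Type := SS 𝕜 × unitInterval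

/-- the point `1` of the sphere -/
def one1 : Sph 𝕜 := ⟨1, by simp⟩

/-- the point `-1` of the sphere -/
def neg1 : Sph 𝕜 := ⟨-1, by simp⟩

/-- base point -/
def pA : SS 𝕜 := fun _ => one1 𝕜

/-- base point with one coordinate flipped -/
def pB (i : Fin 3) : SS 𝕜 := Function.update (pA 𝕜) i (neg1 𝕜)

/-- sum of the values at the two ends -/
noncomputable def ends (s : SS 𝕜) : C(KY 𝕜, 𝕜) →L[𝕜] 𝕜 :=
  ContinuousMap.evalCLM 𝕜 ((s, 0) : KY 𝕜) + ContinuousMap.evalCLM 𝕜 ((s, 1) : KY 𝕜)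

theorem ends_apply (s : SS 𝕜) (f : C(KY 𝕜, 𝕜)) : ends 𝕜 s f = f (s, 0) + f (s, 1) := rfl

/-- the coefficients -/
noncomputable def cc (i : Fin 3) : C(KY 𝕜, 𝕜) →L[𝕜] 𝕜 :=
  ((4 : 𝕜)⁻¹) • (ends 𝕜 (pA 𝕜) - ends 𝕜 (pB 𝕜 i))

/-- the defining functionals of the space -/
noncomputable def LL (s : SS 𝕜) : C(KY 𝕜, 𝕜) →L[𝕜] 𝕜 :=
  ends 𝕜 s - ∑ i, (2 * (s i : 𝕜)) • cc 𝕜 i

/-- the space `Y` -/
noncomputable def YY : Submodule 𝕜 C(KY 𝕜, 𝕜) := ⨅ s, LinearMap.ker (LL 𝕜 s : C(KY 𝕜, 𝕜) →ₗ[𝕜] 𝕜)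

theorem mem_YY (f : C(KY 𝕜, 𝕜)) :
    f ∈ YY 𝕜 ↔ ∀ s, f (s, 0) + f (s, 1) = 2 * ∑ i, cc 𝕜 i f * (s i : 𝕜) := by
  unfold YY
  rw [Submodule.mem_iInf]
  apply forall_congr'
  intro s
  rw [LinearMap.mem_ker]
  show LL 𝕜 s f = 0 ↔ _
  unfold LL
  rw [sub_apply, sum_apply, sub_eq_zero, ends_apply]
  have : ∑ i, ((2 * (s i : 𝕜)) • cc 𝕜 i) f = 2 * ∑ i, cc 𝕜 i f * (s i : 𝕜) := by
    rw [Finset.mul_sum]
    apply Finset.sum_congr rfl
    intro i _
    rw [smul_apply, smul_eq_mul]; ring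
  rw [this]

theorem isClosed_YY : IsClosed (YY 𝕜 : Set C(KY 𝕜, 𝕜)) := by
  have : (YY 𝕜 : Set C(KY 𝕜, 𝕜)) = ⋂ s, {f | LL 𝕜 s f = 0} := by
    ext f
    unfold YY
    simp [Submodule.mem_iInf]
  rw [this]
  exact isClosed_iInter fun s => isClosed_eq (LL 𝕜 s).continuous continuous_const

instance : CompleteSpace (YY 𝕜) := (isClosed_YY 𝕜).completeSpace_coe

/-- functions vanishing at the two ends belong to `Y` -/
theorem mem_YY_of_ends {g : C(KY 𝕜, 𝕜)} (h : ∀ s, g (s, 0) + g (s, 1) = 0) : g ∈ YY 𝕜 := by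
  rw [mem_YY]
  have hc : ∀ i, cc 𝕜 i g = 0 := by
    intro i
    unfold cc
    rw [smul_apply, sub_apply, ends_apply, ends_apply, h, h]
    simp
  intro s
  simp [h, hc]

/-- the coordinate functions -/
noncomputable def epsC (i : Fin 3) : C(KY 𝕜, 𝕜) := ⟨fun t => (t.1 i : 𝕜), by fun_prop⟩

theorem epsC_apply (i : Fin 3) (t : KY 𝕜) : epsC 𝕜 i t = (t.1 i : 𝕜) := rfl

theorem cc_eps (i j : Fin 3) : cc 𝕜 i (epsC 𝕜 j) = if i = j then 1 else 0 := by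
  unfold cc
  rw [smul_apply, sub_apply, ends_apply, ends_apply]
  simp only [epsC_apply, pA, pB, smul_eq_mul]
  split_ifs with h
  · subst h
    simp only [Function.update_self, one1, neg1]
    norm_num
  · rw [Function.update_of_ne (Ne.symm h)]
    simp [pA]

theorem eps_mem (j : Fin 3) : epsC 𝕜 j ∈ YY 𝕜 := by
  rw [mem_YY]
  intro s
  simp only [cc_eps, epsC_apply]
  simp
  ring

/-- the coordinate functions as elements of `Y` -/
noncomputable def eps (i : Fin 3) : YY 𝕜 := ⟨epsC 𝕜 i, eps_mem 𝕜 i⟩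

theorem infinite_open {O : Set unitInterval} (hO : IsOpen O) (hne : O.Nonempty) : O.Infinite := by
  obtain ⟨x, hx⟩ := hne
  exact infinite_of_mem_nhds x (hO.mem_nhds hx)

/-- `C[0,1]` has the Daugavet property -/
theorem daugavet_X : Daugavet 𝕜 C(unitInterval, 𝕜) := by
  apply daugavet_of_embed (LinearIsometry.id : C(unitInterval, 𝕜) →ₗᵢ[𝕜] C(unitInterval, 𝕜)) ∅
    isClosed_empty
  · intro g _
    exact ⟨g, rfl⟩
  · intro O hO hne
    rw [Set.sdiff_empty]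
    exact infinite_open hO hne

/-- `Y` has the Daugavet property -/
theorem daugavet_Y : Daugavet 𝕜 (YY 𝕜) := by
  apply daugavet_of_embed (YY 𝕜).subtypeₗᵢ {t : KY 𝕜 | t.2 = 0 ∨ t.2 = 1}
  · have : {t : KY 𝕜 | t.2 = 0 ∨ t.2 = 1} = Prod.snd ⁻¹' ({0, 1} : Set unitInterval) := by
      ext t; simp
    rw [this]
    exact (Set.Finite.isClosed (Set.toFinite _)).preimage continuous_snd
  · intro g hg
    refine ⟨⟨g, mem_YY_of_ends 𝕜 fun s => ?_⟩, rfl⟩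
    rw [hg _ (Or.inl rfl), hg _ (Or.inr rfl), add_zero]
  · intro O hO hne
    obtain ⟨⟨s, ω⟩, ht⟩ := hne
    have hO' : IsOpen {ω' : unitInterval | (s, ω') ∈ O} := hO.preimage (by fun_prop)
    have hinf : ({ω' : unitInterval | (s, ω') ∈ O} \ {0, 1}).Infinite :=
      (infinite_open hO' ⟨ω, ht⟩).sdiff (Set.toFinite _)
    have himg := hinf.image (f := fun ω' => ((s, ω') : KY 𝕜)) (by
      intro a _ b _ hab
      exact (Prod.mk.inj hab).2)
    apply himg.mono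
    rintro _ ⟨ω', ⟨h1, h2⟩, rfl⟩
    refine ⟨h1, ?_⟩
    intro hcon
    exact h2 hcon

end

end Pool.Agent.Lib.MP_2568bd_an
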